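import Pool.Agent.TH872.GQ.C1
import Pool.Agent.TH212.EH.A6

set_option autoImplicit false

/-! The additive energy of the values of a quadratic polynomial at integers with restricted digits. -/

namespace Pool.Agent.TH872.GQ
open Finset
open Pool.Agent.H807R2.Dav
open Pool.Agent.H373R2.T7
open Pool.Agent.W93.DG
open Pool.Agent.TH872.Sq
open Pool.Agent.TH212.EH (En enum)

/-- the energy is bounded by a moment over any modulus -/
lemma En_le {ι : Type} [Fintype ι] [Nonempty ι] (p : ℕ) (v : ι → ℤ) (M : ℕ) (hM : 1 ≤ M) :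
    (M : ℝ) * En p v ≤ ∑ t ∈ range M, ‖∑ i, ee ((t : ℝ) * ((v i : ℝ) / M))‖ ^ (2 * p) := by
  classical
  obtain ⟨f, hinj, hsurj⟩ := enum ι
  have hsum : ∀ F : ι → ℂ, ∑ m ∈ Icc 1 (Fintype.card ι), F (f m) = ∑ i, F i := by
    intro F
    apply sum_bij (fun m _ => f m)
    · intro m _; exact mem_univ _
    · intro m hm m' hm' h; exact hinj (by exact_mod_cast hm) (by exact_mod_cast hm') h
    · intro i _
      obtain ⟨m, hm, h⟩ := hsurj i
      exact ⟨m, hm, h⟩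
    · intro m _; rfl
  have h1 : En p v ≤ energy p (Fintype.card ι) (fun m => v (f m)) := by
    choose g hg1 hg2 using hsurj
    unfold energy En
    rw [Nat.card_eq_fintype_card, Fintype.card_subtype]
    apply card_le_card_of_injOn (fun q => (fun j => g (q.1 j), fun j => g (q.2 j)))
    · intro q hq
      rw [mem_coe, mem_filter] at hq
      rw [mem_coe, mem_filter, mem_product, Fintype.mem_piFinset, Fintype.mem_piFinset]
      refine ⟨⟨fun j => hg1 _, fun j => hg1 _⟩, ?_⟩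
      simp only [hg2]
      exact hq.2
    · intro q _ q' _ h2
      simp only [Prod.mk.injEq] at h2
      apply Prod.ext
      · funext j
        have := congrArg f (congrFun h2.1 j)
        simpa only [hg2] using this
      · funext j
        have := congrArg f (congrFun h2.2 j)
        simpa only [hg2] using this
  have h2 := energy_le p (Fintype.card ι) (fun m => v (f m)) M hM
  have h3 : ∀ t ∈ range M, ‖∑ m ∈ Icc 1 (Fintype.card ι), ee ((t : ℝ) * ((v (f m) : ℝ) / M))‖ ^ (2 * p) =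
      ‖∑ i, ee ((t : ℝ) * ((v i : ℝ) / M))‖ ^ (2 * p) := by
    intro t _
    rw [hsum (fun i => ee ((t : ℝ) * ((v i : ℝ) / M)))]
  rw [sum_congr rfl h3] at h2
  refine le_trans ?_ h2
  apply mul_le_mul_of_nonneg_left _ (Nat.cast_nonneg _)
  exact_mod_cast h1

/-- **The values of a quadratic polynomial at integers with restricted digits have nearly minimal energy.** -/
theorem quad_energy (b : ℕ) (hb : 2 ≤ b) (κ β : ℤ) (hκ : κ ≠ 0) : ∃ p : ℕ, ∃ C : ℝ, 0 < C ∧ ∀ k : ℕ,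
    ∀ D : ℕ → Finset ℕ, (∀ i < k, D i ⊆ range b ∧ 2 ≤ (D i).card) → ∀ c : ℤ,
    (En p (fun i : {n // n ∈ SD b D k} => c + qv κ β i.1) : ℝ) * ((b ^ (2 * k) : ℕ) : ℝ) ≤
      C * (Fintype.card {n // n ∈ SD b D k} : ℝ) ^ (2 * p) := by
  classical
  obtain ⟨p, C, hp, hC, hmom⟩ := moment b hb (1 / 2) (by norm_num) κ hκ 1 le_rfl
  refine ⟨p, C, hC, fun k D hD c => ?_⟩
  obtain ⟨M, hM⟩ : ∃ M, M = b ^ (2 * k) := ⟨_, rfl⟩
  have hM1 : 1 ≤ M := by rw [hM]; exact Nat.one_le_pow _ _ (by omega)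
  have hcard := SD_card_pos b hb D k hD
  have hfc : Fintype.card {n // n ∈ SD b D k} = (SD b D k).card := Fintype.card_coe _
  have hne : Nonempty {n // n ∈ SD b D k} := by
    rw [← Fintype.card_pos_iff, hfc]
    exact_mod_cast hcard
  have h1 := En_le p (fun i : {n // n ∈ SD b D k} => c + qv κ β i.1) M hM1
  have h2 := hmom k M (by rw [hM]) (by rw [hM, one_mul]) (wD D k) (dig_wD b hb D k hD) 0 β
  obtain ⟨Z, hZ⟩ : ∃ Z : ℝ, Z = ((SD b D k).card : ℝ) := ⟨_, rfl⟩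
  rw [← hZ] at hcard
  rw [← hM, hfc, ← hZ, mul_comm]
  refine h1.trans ?_
  have h3 : ∀ t ∈ range M, ‖∑ i : {n // n ∈ SD b D k}, ee ((t : ℝ) * (((c + qv κ β i.1 : ℤ) : ℝ) / M))‖ ^ (2 * p) =
      Z ^ (2 * p) * ‖∑ n ∈ range (b ^ k), ((P b (wD D k) 0 k n : ℝ) : ℂ) * ee ((t : ℝ) * (((κ * (n : ℤ) ^ 2 + β * n : ℤ) : ℝ) / M))‖ ^ (2 * p) := by
    intro t _
    have e1 : ∑ i : {n // n ∈ SD b D k}, ee ((t : ℝ) * (((c + qv κ β i.1 : ℤ) : ℝ) / M)) =
        ∑ n ∈ SD b D k, ee ((t : ℝ) * (((c + qv κ β n : ℤ) : ℝ) / M)) := by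
      rw [← sum_coe_sort (SD b D k) (fun n => ee ((t : ℝ) * (((c + qv κ β n : ℤ) : ℝ) / M)))]
    have e2 : ∀ n, ee ((t : ℝ) * (((c + qv κ β n : ℤ) : ℝ) / M)) = ee ((t : ℝ) * ((c : ℝ) / M)) * ee ((t : ℝ) * ((qv κ β n : ℝ) / M)) := by
      intro n
      rw [← ee_add]
      congr 1
      push_cast
      ring
    have e3 : ∑ n ∈ range (b ^ k), ((P b (wD D k) 0 k n : ℝ) : ℂ) * ee ((t : ℝ) * (((κ * (n : ℤ) ^ 2 + β * n : ℤ) : ℝ) / M)) =
        (((1 / Z : ℝ)) : ℂ) * ∑ n ∈ SD b D k, ee ((t : ℝ) * ((qv κ β n : ℝ) / M)) := by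
      have h4 : ∀ n ∈ range (b ^ k), ((P b (wD D k) 0 k n : ℝ) : ℂ) * ee ((t : ℝ) * (((κ * (n : ℤ) ^ 2 + β * n : ℤ) : ℝ) / M)) =
          if n ∈ SD b D k then ((1 / Z : ℝ) : ℂ) * ee ((t : ℝ) * ((qv κ β n : ℝ) / M)) else 0 := by
        intro n hn
        rw [P_wD b hb D k hD n hn, ← hZ]
        split_ifs
        · rfl
        · simp
      rw [sum_congr rfl h4, ← sum_filter, mul_sum]
      apply sum_congr _ fun _ _ => rfl
      ext n
      rw [mem_filter]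
      refine ⟨fun h => h.2, fun h => ⟨?_, h⟩⟩
      unfold SD at h
      exact (mem_filter.1 h).1
    rw [e1, sum_congr rfl fun n _ => e2 n, ← mul_sum, norm_mul, norm_ee, one_mul, e3, norm_mul, mul_pow, ← mul_assoc]
    have e4 : ‖(((1 / Z : ℝ)) : ℂ)‖ = 1 / Z := by
      rw [Complex.norm_real, Real.norm_eq_abs, abs_of_pos (by positivity)]
    rw [e4, ← mul_pow, mul_one_div_cancel hcard.ne', one_pow, one_mul]
  rw [sum_congr rfl h3, ← mul_sum, mul_comm]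
  exact mul_le_mul_of_nonneg_right h2 (by positivity)

/-- the hypotheses of the theorems on thin families -/
theorem quad_hyp (b : ℕ) (hb : 2 ≤ b) (κ β : ℤ) (hκ : κ ≠ 0) (B : ℕ) : ∃ p B' k₀ : ℕ, B ≤ B' ∧ ∀ k : ℕ, k₀ ≤ k →
    ∀ D : ℕ → Finset ℕ, (∀ i < k, D i ⊆ range b ∧ 2 ≤ (D i).card) → ∀ c : ℤ, |c| ≤ B * (b ^ (2 * k) : ℕ) →
    (∀ i : {n // n ∈ SD b D k}, |c + qv κ β i.1| ≤ B' * (b ^ (2 * k) : ℕ)) ∧
    (En p (fun i : {n // n ∈ SD b D k} => c + qv κ β i.1) : ℝ) * ((b ^ (2 * k) : ℕ) : ℝ) ≤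
      Real.log ((b ^ (2 * k) : ℕ) : ℝ) ^ 1 * (Fintype.card {n // n ∈ SD b D k} : ℝ) ^ (2 * p) := by
  obtain ⟨p, C, hC, hE⟩ := quad_energy b hb κ β hκ
  obtain ⟨K1, hK1⟩ := log_bounds b 1 hb le_rfl
  obtain ⟨K2, hK2⟩ := exists_nat_ge C
  refine ⟨p, B + (κ.natAbs + β.natAbs), K1 + K2, by omega, fun k hk D hD c hc => ⟨fun i => ?_, ?_⟩⟩
  · have h1 : (i.1 : ℕ) < b ^ k := by
      have h := i.2
      unfold SD at h
      exact mem_range.1 (mem_filter.1 h).1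
    have h2 := qv_le κ β b k i.1 h1
    refine (abs_add_le _ _).trans ?_
    push_cast at hc h2 ⊢
    linarith
  · refine (hE k D hD c).trans ?_
    apply mul_le_mul_of_nonneg_right _ (by positivity)
    rw [pow_one]
    obtain ⟨h1, _⟩ := hK1 k (by omega)
    rw [one_mul] at h1
    have h2 : (K2 : ℝ) ≤ k := by exact_mod_cast (by omega : K2 ≤ k)
    linarith

end Pool.Agent.TH872.GQ
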