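import Pool.Agent.TH872.GQ.C2
import Pool.Agent.TH872.GQ.En

set_option autoImplicit false

/-! The family of the values of a quadratic polynomial at integers with restricted digits: definitions and the
hypotheses of the theorems on thin families. -/

namespace Pool.Agent.TH872.GQ
open Finset
open Pool.Agent.TH872.Sq
open Pool.Agent.TH212.EH (En)

/-- The integers below `b ^ k` whose `i`-th digit in base `b` lies in `D i`, for all `i < k`. -/
def S (b : ℕ) (D : ℕ → Finset ℕ) (k : ℕ) : Finset ℕ :=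
  (range (b ^ k)).filter (fun n : ℕ => ∀ i < k, n / b ^ i % b ∈ D i)

/-- The integer `c + κ n ^ 2 + β n`. -/
def value (κ β c : ℤ) (n : ℕ) : ℤ := c + κ * (n : ℤ) ^ 2 + β * n

lemma value_eq (κ β c : ℤ) (n : ℕ) : value κ β c n = c + qv κ β n := by
  unfold value qv
  ring

/-- from the exceptional members of the family to the exceptional arguments -/
lemma conv (s : Finset ℕ) (P : ℕ → Prop) [DecidablePred P] (P' : {n // n ∈ s} → Prop) [DecidablePred P']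
    (h : ∀ i : {n // n ∈ s}, P i.1 → P' i) (t : ℝ) (ht : ((univ.filter P').card : ℝ) ≤ t) : ((s.filter P).card : ℝ) ≤ t := by
  classical
  refine le_trans ?_ ht
  apply Nat.cast_le.2
  have e : (s.filter P) ⊆ ((univ : Finset {n // n ∈ s}).filter P').image (fun i => i.1) := by
    intro n hn
    rw [mem_filter] at hn
    rw [mem_image]
    exact ⟨⟨n, hn.1⟩, mem_filter.2 ⟨mem_univ _, h ⟨n, hn.1⟩ hn.2⟩, rfl⟩
  exact (card_le_card e).trans card_image_le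

/-- the family -/
theorem fam (b : ℕ) (hb : 2 ≤ b) (κ β : ℤ) (hκ : κ ≠ 0) (B : ℕ) : ∃ h B' k₀ : ℕ, 1 ≤ h ∧ 1 ≤ B' ∧ B ≤ B' ∧ ∀ k : ℕ, k₀ ≤ k →
    ∀ D : ℕ → Finset ℕ, (∀ i < k, D i ⊆ range b ∧ 2 ≤ (D i).card) → ∀ c : ℤ, |c| ≤ B * (b : ℤ) ^ (2 * k) →
    (∀ i : {n // n ∈ S b D k}, |value κ β c i.1| ≤ ((B' * b ^ (2 * k) : ℕ) : ℤ)) ∧
    (En h (fun i : {n // n ∈ S b D k} => value κ β c i.1) : ℝ) * ((B' * b ^ (2 * k) : ℕ) : ℝ) ≤
      Real.log ((B' * b ^ (2 * k) : ℕ) : ℝ) ^ 1 * (Fintype.card {n // n ∈ S b D k} : ℝ) ^ (2 * h) ∧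
    (k : ℝ) ≤ Real.log ((B' * b ^ (2 * k) : ℕ) : ℝ) ∧ Real.log ((B' * b ^ (2 * k) : ℕ) : ℝ) ≤ (k : ℝ) ^ 2 := by
  classical
  obtain ⟨p, C, hC, hE⟩ := quad_energy b hb κ β hκ
  obtain ⟨B', hB'⟩ : ∃ B' : ℕ, B' = B + (κ.natAbs + β.natAbs) + 1 := ⟨_, rfl⟩
  obtain ⟨K1, hK1⟩ := log_bounds b B' hb (by omega)
  obtain ⟨K2, hK2⟩ := exists_nat_ge (C * B')
  rcases Nat.eq_zero_or_pos p with hp | hp
  · -- the energy of order zero is one, which is impossible for large `k`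
    exfalso
    obtain ⟨K3, hK3⟩ := exists_nat_ge C
    obtain ⟨k, hk⟩ : ∃ k, k = K3 + 1 := ⟨_, rfl⟩
    have h1 := hE k (fun _ => range b) (fun i _ => ⟨subset_rfl, by rw [card_range]; exact hb⟩) 0
    have h2 : (1 : ℝ) ≤ En p (fun i : {n // n ∈ SD b (fun _ => range b) k} => 0 + qv κ β i.1) := by
      have : 1 ≤ En p (fun i : {n // n ∈ SD b (fun _ => range b) k} => 0 + qv κ β i.1) := by
        unfold En
        rw [Nat.one_le_iff_ne_zero, Nat.card_ne_zero]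
        subst hp
        refine ⟨⟨⟨(fun i => i.elim0, fun i => i.elim0), by simp⟩⟩, inferInstance⟩
      exact_mod_cast this
    rw [hp, mul_zero, pow_zero, mul_one] at h1
    rw [hp] at h2
    have h3 : (k : ℝ) < ((b ^ (2 * k) : ℕ) : ℝ) := by
      have : k < b ^ (2 * k) := lt_of_le_of_lt (by omega : k ≤ 2 * k) (Nat.lt_pow_self (by omega))
      exact_mod_cast this
    have h4 : (k : ℝ) = K3 + 1 := by rw [hk]; push_cast; ring
    have h5 : (0 : ℝ) ≤ ((b ^ (2 * k) : ℕ) : ℝ) := Nat.cast_nonneg _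
    nlinarith
  refine ⟨p, B', K1 + K2, hp, by omega, by omega, fun k hk D hD c hc => ?_⟩
  have hSS : SD b D k = S b D k := rfl
  obtain ⟨hl1, hl2⟩ := hK1 k (by omega)
  refine ⟨fun i => ?_, ?_, hl1, hl2⟩
  · have h1 : (i.1 : ℕ) < b ^ k := by
      have h := i.2
      unfold S at h
      exact mem_range.1 (mem_filter.1 h).1
    have h2 := qv_le κ β b k i.1 h1
    rw [value_eq]
    refine (abs_add_le _ _).trans ?_
    have h3 : (0 : ℤ) ≤ (b : ℤ) ^ (2 * k) := by positivity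
    rw [hB']
    push_cast at h2 ⊢
    nlinarith
  · have h1 := hE k D hD c
    have e1 : (fun i : {n // n ∈ S b D k} => value κ β c i.1) = (fun i : {n // n ∈ S b D k} => c + qv κ β i.1) := by
      funext i
      exact value_eq κ β c i.1
    rw [e1, pow_one]
    obtain ⟨Z, hZ⟩ : ∃ Z : ℝ, Z = (Fintype.card {n // n ∈ S b D k} : ℝ) ^ (2 * p) := ⟨_, rfl⟩
    have hZ0 : 0 ≤ Z := by rw [hZ]; positivity
    have h2 : (En p (fun i : {n // n ∈ S b D k} => c + qv κ β i.1) : ℝ) * ((b ^ (2 * k) : ℕ) : ℝ) ≤ C * Z := by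
      rw [hZ]
      exact h1
    rw [← hZ]
    have h3 : (K2 : ℝ) ≤ k := by exact_mod_cast (by omega : K2 ≤ k)
    have h4 : (0 : ℝ) ≤ B' := Nat.cast_nonneg _
    calc (En p (fun i : {n // n ∈ S b D k} => c + qv κ β i.1) : ℝ) * ((B' * b ^ (2 * k) : ℕ) : ℝ) =
          B' * ((En p (fun i : {n // n ∈ S b D k} => c + qv κ β i.1) : ℝ) * ((b ^ (2 * k) : ℕ) : ℝ)) := by
            push_cast
            ring
      _ ≤ B' * (C * Z) := mul_le_mul_of_nonneg_left h2 h4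
      _ = (C * B') * Z := by ring
      _ ≤ Real.log ((B' * b ^ (2 * k) : ℕ) : ℝ) * Z := mul_le_mul_of_nonneg_right (by linarith) hZ0

/-- small positive values are rare -/
theorem small (b : ℕ) (hb : 2 ≤ b) (κ β : ℤ) (hκ : κ ≠ 0) (B' U : ℕ) : ∃ W k₀ : ℕ, ∀ W' : ℕ, W ≤ W' → ∀ k : ℕ, k₀ ≤ k →
    ∀ D : ℕ → Finset ℕ, (∀ i < k, D i ⊆ range b ∧ 2 ≤ (D i).card) → ∀ c : ℤ, ∀ P : ℕ → Prop, [DecidablePred P] →
    (∀ n, P n → 0 < value κ β c n ∧ ((value κ β c n : ℤ) : ℝ) * Real.log ((B' * b ^ (2 * k) : ℕ) : ℝ) ^ W' < ((B' * b ^ (2 * k) : ℕ) : ℝ)) →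
    (((S b D k).filter P).card : ℝ) ≤ (S b D k).card / (k : ℝ) ^ (U + 1) := by
  classical
  obtain ⟨W, K1, hW⟩ := few_small b hb κ β hκ U
  obtain ⟨K2, hK2⟩ := log_bounds b 1 hb le_rfl
  refine ⟨W + 1, K1 + K2 + B' + 1, fun W' hW' k hk D hD c P _ hP => ?_⟩
  have hSS : SD b D k = S b D k := rfl
  rw [← hSS]
  apply hW k (by omega) D hD c P
  intro n hn
  obtain ⟨h1, h2⟩ := hP n hn
  rw [← value_eq]
  refine ⟨h1, ?_⟩
  obtain ⟨hl1, _⟩ := hK2 k (by omega)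
  rw [one_mul] at hl1
  obtain ⟨N, hN⟩ : ∃ N : ℕ, N = b ^ (2 * k) := ⟨_, rfl⟩
  rw [← hN] at h2 hl1 ⊢
  have hN1 : 1 ≤ N := by rw [hN]; exact Nat.one_le_pow _ _ (by omega)
  have hN0 : (0 : ℝ) < N := by exact_mod_cast hN1
  have hkB : (B' : ℝ) + 1 ≤ k := by exact_mod_cast (by omega : B' + 1 ≤ k)
  have hL0 : 0 < Real.log N := by
    have : (0 : ℝ) ≤ B' := Nat.cast_nonneg _
    linarith
  have hv0 : (0 : ℝ) < ((value κ β c n : ℤ) : ℝ) := by exact_mod_cast h1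
  rcases Nat.eq_zero_or_pos B' with hB | hB
  · exfalso
    rw [hB] at h2
    simp only [zero_mul, Nat.cast_zero, Real.log_zero] at h2
    rw [zero_pow (by omega), mul_zero] at h2
    exact lt_irrefl _ h2
  have hBr : (1 : ℝ) ≤ B' := by exact_mod_cast hB
  have hLL : Real.log N ≤ Real.log ((B' * N : ℕ) : ℝ) := by
    apply Real.log_le_log hN0
    exact_mod_cast Nat.le_mul_of_pos_left N hB
  have hL1 : 1 ≤ Real.log ((B' * N : ℕ) : ℝ) := by linarith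
  rw [lt_div_iff₀ (by positivity)]
  have e1 : ((value κ β c n : ℤ) : ℝ) * (Real.log N ^ W * B') ≤ ((value κ β c n : ℤ) : ℝ) * Real.log ((B' * N : ℕ) : ℝ) ^ W' := by
    apply mul_le_mul_of_nonneg_left _ hv0.le
    calc Real.log N ^ W * B' ≤ Real.log ((B' * N : ℕ) : ℝ) ^ W * Real.log ((B' * N : ℕ) : ℝ) := by
          apply mul_le_mul (pow_le_pow_left₀ hL0.le hLL _) (by linarith) (by positivity) (by positivity)
      _ = Real.log ((B' * N : ℕ) : ℝ) ^ (W + 1) := by ring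
      _ ≤ _ := pow_le_pow_right₀ hL1 hW'
  have e2 : ((B' * N : ℕ) : ℝ) = B' * N := by push_cast; ring
  rw [e2] at h2 e1
  have e3 : (B' : ℝ) * (((value κ β c n : ℤ) : ℝ) * Real.log N ^ W) < B' * N := by
    calc (B' : ℝ) * (((value κ β c n : ℤ) : ℝ) * Real.log N ^ W) = ((value κ β c n : ℤ) : ℝ) * (Real.log N ^ W * B') := by ring
      _ ≤ _ := e1
      _ < _ := h2
  exact lt_of_mul_lt_mul_left e3 (by linarith)

/-- two small sets -/
lemma add_small (s : Finset ℕ) (P P₁ P₂ : ℕ → Prop) [DecidablePred P] [DecidablePred P₁] [DecidablePred P₂] (k U : ℕ) (hk : 2 ≤ k)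
    (h : ∀ n ∈ s, P n → P₁ n ∨ P₂ n) (h1 : ((s.filter P₁).card : ℝ) ≤ s.card / (k : ℝ) ^ (U + 1))
    (h2 : ((s.filter P₂).card : ℝ) ≤ s.card / (k : ℝ) ^ (U + 1)) : ((s.filter P).card : ℝ) ≤ s.card / (k : ℝ) ^ U := by
  classical
  have hk2 : (2 : ℝ) ≤ k := by exact_mod_cast hk
  have hk0 : (0 : ℝ) < k := by linarith
  have hsub : s.filter P ⊆ s.filter P₁ ∪ s.filter P₂ := by
    intro n hn
    rw [mem_filter] at hn
    rw [mem_union, mem_filter, mem_filter]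
    rcases h n hn.1 hn.2 with h3 | h3
    · exact Or.inl ⟨hn.1, h3⟩
    · exact Or.inr ⟨hn.1, h3⟩
  have h3 : ((s.filter P).card : ℝ) ≤ ((s.filter P₁).card : ℝ) + ((s.filter P₂).card : ℝ) := by
    exact_mod_cast (card_le_card hsub).trans (card_union_le _ _)
  have e1 : (s.card : ℝ) / (k : ℝ) ^ (U + 1) + (s.card : ℝ) / (k : ℝ) ^ (U + 1) = (s.card : ℝ) / (k : ℝ) ^ U * (2 / k) := by
    rw [pow_succ]
    field_simp
    ring
  have e2 : (s.card : ℝ) / (k : ℝ) ^ U * (2 / k) ≤ (s.card : ℝ) / (k : ℝ) ^ U := by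
    apply mul_le_of_le_one_right (by positivity)
    rw [div_le_one hk0]
    exact hk2
  linarith

/-- passing to powers of `k` -/
lemma pow_of_log (x L : ℝ) (hx : 0 ≤ x) (k V : ℕ) (hk : 1 ≤ k) (hL : (k : ℝ) ≤ L) : x / L ^ V ≤ x / (k : ℝ) ^ V := by
  have hk0 : (0 : ℝ) < k := by exact_mod_cast hk
  exact div_le_div_of_nonneg_left hx (by positivity) (pow_le_pow_left₀ hk0.le hL V)

end Pool.Agent.TH872.GQ
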