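import Pool.Agent.TH872.GQ.En
import Pool.Agent.TH872.GQ.Fam

set_option autoImplicit false

/-! The additive energies of all large orders. -/

namespace Pool.Agent.TH872.GQ
open Finset
open Pool.Agent.H807R2.Dav
open Pool.Agent.H373R2.T7
open Pool.Agent.W93.DG
open Pool.Agent.TH872.Sq
open Pool.Agent.TH212.EH (En enum)

/-- the energies of all large orders of the values of a quadratic polynomial at integers with restricted digits -/
theorem quad_energy' (b : ℕ) (hb : 2 ≤ b) (κ β : ℤ) (hκ : κ ≠ 0) : ∃ p₀ : ℕ, ∃ C : ℝ, 0 < C ∧ ∀ p : ℕ, p₀ ≤ p → ∀ k : ℕ,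
    ∀ D : ℕ → Finset ℕ, (∀ i < k, D i ⊆ range b ∧ 2 ≤ (D i).card) → ∀ c : ℤ,
    (En p (fun i : {n // n ∈ SD b D k} => c + qv κ β i.1) : ℝ) * ((b ^ (2 * k) : ℕ) : ℝ) ≤
      C * (Fintype.card {n // n ∈ SD b D k} : ℝ) ^ (2 * p) := by
  classical
  obtain ⟨p₀, C, hp, hC, hmom⟩ := moment b hb (1 / 2) (by norm_num) κ hκ 1 le_rfl
  refine ⟨p₀, C, hC, fun p hpp k D hD c => ?_⟩
  obtain ⟨M, hM⟩ : ∃ M, M = b ^ (2 * k) := ⟨_, rfl⟩
  have hM1 : 1 ≤ M := by rw [hM]; exact Nat.one_le_pow _ _ (by omega)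
  have hcard := SD_card_pos b hb D k hD
  have hfc : Fintype.card {n // n ∈ SD b D k} = (SD b D k).card := Fintype.card_coe _
  have hne : Nonempty {n // n ∈ SD b D k} := by
    rw [← Fintype.card_pos_iff, hfc]
    exact_mod_cast hcard
  have h1 := En_le p (fun i : {n // n ∈ SD b D k} => c + qv κ β i.1) M hM1
  have h2 := hmom k M (by rw [hM]) (by rw [hM, one_mul]) (wD D k) (dig_wD b hb D k hD) 0 β
  obtain ⟨Z, hZ⟩ : ∃ Z : ℝ, Z = ((SD b D k).card : ℝ) := ⟨_, rfl⟩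
  rw [← hZ] at hcard
  rw [← hM, hfc, ← hZ, mul_comm]
  refine h1.trans ?_
  have htriv : ∀ t ∈ range M, ‖∑ i : {n // n ∈ SD b D k}, ee ((t : ℝ) * (((c + qv κ β i.1 : ℤ) : ℝ) / M))‖ ^ (2 * p) ≤
      Z ^ (2 * (p - p₀)) * ‖∑ i : {n // n ∈ SD b D k}, ee ((t : ℝ) * (((c + qv κ β i.1 : ℤ) : ℝ) / M))‖ ^ (2 * p₀) := by
    intro t _
    obtain ⟨A, hA⟩ : ∃ A : ℝ, A = ‖∑ i : {n // n ∈ SD b D k}, ee ((t : ℝ) * (((c + qv κ β i.1 : ℤ) : ℝ) / M))‖ := ⟨_, rfl⟩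
    have hA0 : 0 ≤ A := by rw [hA]; exact norm_nonneg _
    have hAZ : A ≤ Z := by
      rw [hA]
      refine (norm_sum_le _ _).trans ?_
      have e1 : ∀ i ∈ (univ : Finset {n // n ∈ SD b D k}), ‖ee ((t : ℝ) * (((c + qv κ β i.1 : ℤ) : ℝ) / M))‖ ≤ 1 := by
        intro i _
        rw [norm_ee]
      refine (sum_le_sum e1).trans (le_of_eq ?_)
      rw [sum_const, card_univ, hfc, nsmul_eq_mul, mul_one, hZ]
    rw [← hA]
    have e2 : 2 * p = 2 * (p - p₀) + 2 * p₀ := by omega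
    rw [e2, pow_add]
    exact mul_le_mul_of_nonneg_right (pow_le_pow_left₀ hA0 hAZ _) (by positivity)
  refine (sum_le_sum htriv).trans ?_
  rw [← mul_sum]
  have h3 : ∀ t ∈ range M, ‖∑ i : {n // n ∈ SD b D k}, ee ((t : ℝ) * (((c + qv κ β i.1 : ℤ) : ℝ) / M))‖ ^ (2 * p₀) =
      Z ^ (2 * p₀) * ‖∑ n ∈ range (b ^ k), ((P b (wD D k) 0 k n : ℝ) : ℂ) * ee ((t : ℝ) * (((κ * (n : ℤ) ^ 2 + β * n : ℤ) : ℝ) / M))‖ ^ (2 * p₀) := by
    intro t _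
    have e1 : ∑ i : {n // n ∈ SD b D k}, ee ((t : ℝ) * (((c + qv κ β i.1 : ℤ) : ℝ) / M)) =
        ∑ n ∈ SD b D k, ee ((t : ℝ) * (((c + qv κ β n : ℤ) : ℝ) / M)) := by
      rw [← sum_coe_sort (SD b D k) (fun n => ee ((t : ℝ) * (((c + qv κ β n : ℤ) : ℝ) / M)))]
    have e2 : ∀ n, ee ((t : ℝ) * (((c + qv κ β n : ℤ) : ℝ) / M)) = ee ((t : ℝ) * ((c : ℝ) / M)) * ee ((t : ℝ) * ((qv κ β n : ℝ) / M)) := by
      intro n
      rw [← ee_add]
      congr 1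
      push_cast
      ring
    have e3 : ∑ n ∈ range (b ^ k), ((P b (wD D k) 0 k n : ℝ) : ℂ) * ee ((t : ℝ) * (((κ * (n : ℤ) ^ 2 + β * n : ℤ) : ℝ) / M)) =
        (((1 / Z : ℝ)) : ℂ) * ∑ n ∈ SD b D k, ee ((t : ℝ) * ((qv κ β n : ℝ) / M)) := by
      have h4 : ∀ n ∈ range (b ^ k), ((P b (wD D k) 0 k n : ℝ) : ℂ) * ee ((t : ℝ) * (((κ * (n : ℤ) ^ 2 + β * n : ℤ) : ℝ) / M)) =
          if n ∈ SD b D k then ((1 / Z : ℝ) : ℂ) * ee ((t : ℝ) * ((qv κ β n : ℝ) / M)) else 0 := by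
        intro n hn
        rw [P_wD b hb D k hD n hn, ← hZ]
        split_ifs
        · rfl
        · simp
      rw [sum_congr rfl h4, ← sum_filter, mul_sum]
      apply sum_congr _ fun _ _ => rfl
      ext n
      rw [mem_filter]
      refine ⟨fun h => h.2, fun h => ⟨?_, h⟩⟩
      unfold SD at h
      exact (mem_filter.1 h).1
    rw [e1, sum_congr rfl fun n _ => e2 n, ← mul_sum, norm_mul, norm_ee, one_mul, e3, norm_mul, mul_pow, ← mul_assoc]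
    have e4 : ‖(((1 / Z : ℝ)) : ℂ)‖ = 1 / Z := by
      rw [Complex.norm_real, Real.norm_eq_abs, abs_of_pos (by positivity)]
    rw [e4, ← mul_pow, mul_one_div_cancel hcard.ne', one_pow, one_mul]
  rw [sum_congr rfl h3, ← mul_sum, ← mul_assoc, ← pow_add]
  have e5 : 2 * (p - p₀) + 2 * p₀ = 2 * p := by omega
  rw [e5, mul_comm C]
  exact mul_le_mul_of_nonneg_left h2 (by positivity)

end Pool.Agent.TH872.GQ
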