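import Pool.Agent.TH212.EH.A6
import Pool.Agent.W93.LV6

set_option autoImplicit false

/-! From bounded weights on the moduli to divisor-bounded weights, heights which depend on the modulus, and
absolute values over the moduli, for an arbitrary law of the residue. -/

namespace Pool.Agent.TH872.GQ
open Finset
open Pool.Agent.W93.LV
open Pool.Agent.TH212.EH (W WW WW_cell WW_split tail_le tau_pow_div E_le sum_filter_le)

/-- cells for the heights -/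
lemma cells (T U : ℕ) : ∃ m k₀ : ℕ, ∀ k : ℕ, k₀ ≤ k → ∀ X X' Q : ℕ, X' ≤ X → 1 ≤ Real.log X → Real.log X ≤ (k : ℝ) ^ 2 →
    (Q : ℝ) * (k : ℝ) ^ m ≤ X →
    ∃ (g : ℕ → ℕ) (R : Finset ℕ), (R.card : ℝ) ≤ (k : ℝ) ^ (m + 1) ∧ (∀ r ∈ R, r ≤ X') ∧
      ∀ lam : ℕ → ℝ, (∀ q, |lam q| ≤ (k : ℝ) ^ T) → ∀ y : ℕ → ℕ, (∀ q, y q ≤ X') → ∀ a : ℕ,
        |WW lam y Q a| ≤ ∑ r ∈ R, |W (fun q => if g (y q) = r then lam q else 0) Q r a| + X / (k : ℝ) ^ U := by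
  obtain ⟨m, hm⟩ : ∃ m, m = T + U + 7 := ⟨_, rfl⟩
  refine ⟨m, 4, fun k hk X X' Q hX' hL1 hL2 hQ => ?_⟩
  have hk4 : (4 : ℝ) ≤ k := by exact_mod_cast hk
  have hk0 : (0 : ℝ) < k := by linarith
  have hk1 : (1 : ℝ) ≤ k := by linarith
  have hX0 : (0 : ℝ) < X := by
    rcases Nat.eq_zero_or_pos X with h | h
    · rw [h] at hL1
      norm_num at hL1
    · exact_mod_cast h
  have hQX : Q ≤ X := by
    have : (Q : ℝ) ≤ X := le_trans (le_mul_of_one_le_right (Nat.cast_nonneg _) (one_le_pow₀ hk1)) hQ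
    exact_mod_cast this
  obtain ⟨D, hD⟩ : ∃ D : ℕ, D = ⌊(X : ℝ) / (k : ℝ) ^ m⌋₊ := ⟨_, rfl⟩
  have hD1 : (D : ℝ) ≤ X / (k : ℝ) ^ m := by rw [hD]; exact Nat.floor_le (by positivity)
  have hD2 : (X : ℝ) / (k : ℝ) ^ m < D + 1 := by rw [hD]; exact Nat.lt_floor_add_one _
  have hQ' : (Q : ℝ) ≤ X / (k : ℝ) ^ m := by rw [le_div_iff₀ (by positivity)]; exact hQ
  obtain ⟨J, hJ⟩ : ∃ J : ℕ, J = X' / (D + 1) := ⟨_, rfl⟩
  have hJ1 : (J : ℝ) ≤ (k : ℝ) ^ m := by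
    have q1 : (J : ℝ) ≤ (X' : ℝ) / ((D + 1 : ℕ) : ℝ) := by rw [hJ]; exact Nat.cast_div_le
    refine q1.trans ?_
    push_cast
    rw [div_le_iff₀ (by positivity)]
    rw [div_lt_iff₀ (by positivity)] at hD2
    have q2 : (X' : ℝ) ≤ X := by exact_mod_cast hX'
    nlinarith
  obtain ⟨g, hg⟩ : ∃ g : ℕ → ℕ, g = fun A => (D + 1) * (A / (D + 1)) := ⟨_, rfl⟩
  obtain ⟨R, hR⟩ : ∃ R : Finset ℕ, R = ((range (J + 1)).image (fun j => (D + 1) * j)).filter (fun r => r ≤ X') := ⟨_, rfl⟩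
  have hRc : (R.card : ℝ) ≤ (k : ℝ) ^ (m + 1) := by
    have q1 : R.card ≤ J + 1 := by
      rw [hR]
      refine (card_filter_le _ _).trans ?_
      refine card_image_le.trans ?_
      rw [card_range]
    have q2 : (1 : ℝ) ≤ (k : ℝ) ^ m := one_le_pow₀ hk1
    calc (R.card : ℝ) ≤ J + 1 := by exact_mod_cast q1
      _ ≤ (k : ℝ) ^ m + (k : ℝ) ^ m := add_le_add hJ1 q2
      _ ≤ (k : ℝ) ^ m * k := by nlinarith
      _ = (k : ℝ) ^ (m + 1) := by ring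
  have hgle : ∀ A, g A ≤ A := by
    intro A
    rw [hg]
    exact Nat.mul_div_le _ _
  have hgR : ∀ A ≤ X', g A ∈ R := by
    intro A hA
    rw [hR, mem_filter]
    refine ⟨?_, (hgle A).trans hA⟩
    rw [hg]
    refine mem_image.2 ⟨A / (D + 1), ?_, rfl⟩
    rw [mem_range, hJ]
    exact Nat.lt_succ_of_le (Nat.div_le_div_right hA)
  have hgD : ∀ A, A - g A ≤ D := by
    intro A
    rw [hg]
    simp only
    have q1 := Nat.div_add_mod A (D + 1)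
    have q2 := Nat.mod_lt A (by omega : D + 1 > 0)
    omega
  refine ⟨g, R, hRc, fun r hr => ?_, fun lam hlam y hy a => ?_⟩
  · rw [hR, mem_filter] at hr
    exact hr.2
  · obtain ⟨Lx, hLx⟩ : ∃ Lx, Lx = Real.log (X : ℝ) := ⟨_, rfl⟩
    rw [← hLx] at hL1 hL2
    have q1 := WW_cell lam y g Q a X D ((k : ℝ) ^ T) Lx hQX (fun q => (hy q).trans hX') hgle hgD hlam hLx.symm hL1
    rw [WW_split lam (fun q => g (y q)) Q a R (fun q => hgR _ (hy q))] at q1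
    have q2 := abs_sum_le_sum_abs (fun r => W (fun q => if g (y q) = r then lam q else 0) Q r a) R
    have q3 : (k : ℝ) ^ T * (Lx * (D * (1 + Lx) + Q) + D * (1 + Lx) ^ 2) ≤ X / (k : ℝ) ^ U := by
      have e1 : 1 + Lx ≤ (k : ℝ) ^ 3 := by
        have : (k : ℝ) ^ 3 = (k : ℝ) ^ 2 * k := by ring
        nlinarith [sq_nonneg (k : ℝ)]
      have e2 : 0 ≤ Lx := by linarith
      obtain ⟨Z, hZ⟩ : ∃ Z : ℝ, Z = X / (k : ℝ) ^ m := ⟨_, rfl⟩
      rw [← hZ] at hD1 hQ'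
      have hZ0 : 0 ≤ Z := by rw [hZ]; positivity
      calc (k : ℝ) ^ T * (Lx * (D * (1 + Lx) + Q) + D * (1 + Lx) ^ 2) ≤
            (k : ℝ) ^ T * ((k : ℝ) ^ 2 * (Z * (k : ℝ) ^ 3 + Z) + Z * ((k : ℝ) ^ 3) ^ 2) := by gcongr
        _ = (k : ℝ) ^ T * Z * ((k : ℝ) ^ 5 + (k : ℝ) ^ 2 + (k : ℝ) ^ 6) := by ring
        _ ≤ (k : ℝ) ^ T * Z * ((k : ℝ) ^ 7) := by
            apply mul_le_mul_of_nonneg_left _ (by positivity)
            have f1 : (k : ℝ) ^ 5 ≤ (k : ℝ) ^ 6 := pow_le_pow_right₀ hk1 (by norm_num)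
            have f2 : (k : ℝ) ^ 2 ≤ (k : ℝ) ^ 6 := pow_le_pow_right₀ hk1 (by norm_num)
            have f3 : (k : ℝ) ^ 7 = (k : ℝ) ^ 6 * k := by ring
            have f4 : (0 : ℝ) < (k : ℝ) ^ 6 := by positivity
            nlinarith
        _ = X / (k : ℝ) ^ U := by
            rw [hZ, hm, pow_add, pow_add]
            field_simp
    linarith

/-- the hypothesis: bounded weights, all heights -/
def Hyp (k X X' Q T₁ U₁ : ℕ) {ι : Type} (Ω : Finset ι) (p : ι → ℝ) (a : ι → ℕ) : Prop :=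
  ∀ lam : ℕ → ℝ, (∀ q, |lam q| ≤ (k : ℝ) ^ T₁) → ∀ E : ι → Prop, ∀ _ : DecidablePred E,
    (∀ ω ∈ Ω, E ω → ∃ x ≤ X', (X : ℝ) / (k : ℝ) ^ U₁ < |W lam Q x (a ω)|) →
    ∑ ω ∈ Ω, (if E ω then p ω else 0) ≤ 1 / (k : ℝ) ^ U₁

/-- divisor-bounded weights -/
theorem heavy (T U : ℕ) : ∃ T₁ U₁ m k₀ : ℕ, ∀ k : ℕ, k₀ ≤ k → ∀ X X' Q : ℕ, X' ≤ X → 1 ≤ Real.log X → Real.log X ≤ (k : ℝ) ^ 2 →
    (Q : ℝ) * (k : ℝ) ^ m ≤ X → ∀ (ι : Type) (Ω : Finset ι) (p : ι → ℝ), (∀ ω ∈ Ω, 0 ≤ p ω) → ∀ a : ι → ℕ,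
    Hyp k X X' Q T₁ U₁ Ω p a →
    ∀ lam : ℕ → ℝ, (∀ q, |lam q| ≤ (k : ℝ) ^ T * (q.divisors.card : ℝ) ^ T) →
      (∀ E : ι → Prop, ∀ _ : DecidablePred E, (∀ ω ∈ Ω, E ω → ∃ x ≤ X', (X : ℝ) / (k : ℝ) ^ U < |W lam Q x (a ω)|) →
        ∑ ω ∈ Ω, (if E ω then p ω else 0) ≤ 1 / (k : ℝ) ^ U) ∧
      ∀ y : ℕ → ℕ, (∀ q, y q ≤ X') →
      ∀ E : ι → Prop, ∀ _ : DecidablePred E, (∀ ω ∈ Ω, E ω → (X : ℝ) / (k : ℝ) ^ U < |WW lam y Q (a ω)|) →
        ∑ ω ∈ Ω, (if E ω then p ω else 0) ≤ 1 / (k : ℝ) ^ U := by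
  classical
  obtain ⟨S, hS⟩ : ∃ S, S = T + U + 5 + 3 * 2 ^ (2 * T) := ⟨_, rfl⟩
  obtain ⟨m, k1, hcell⟩ := cells (T + S) (U + 1)
  obtain ⟨U₁, hU₁⟩ : ∃ U₁, U₁ = U + m + 3 := ⟨_, rfl⟩
  refine ⟨T + S, U₁, m, k1 + 16, fun k hk X X' Q hX' hL1 hL2 hQ ι Ω p hp a hyp lam hlam => ?_⟩
  obtain ⟨g, R, hR1, hR2, hR3⟩ := hcell k (by omega) X X' Q hX' hL1 hL2 hQ
  have hk16 : (16 : ℝ) ≤ k := by exact_mod_cast (by omega : 16 ≤ k)
  have hk0 : (0 : ℝ) < k := by linarith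
  have hk1 : (1 : ℝ) ≤ k := by linarith
  have hX0 : (0 : ℝ) < X := by
    rcases Nat.eq_zero_or_pos X with h | h
    · rw [h] at hL1
      norm_num at hL1
    · exact_mod_cast h
  have hQX : Q ≤ X := by
    have : (Q : ℝ) ≤ X := le_trans (le_mul_of_one_le_right (Nat.cast_nonneg _) (one_le_pow₀ hk1)) hQ
    exact_mod_cast this
  obtain ⟨l1, hl1⟩ : ∃ l1 : ℕ → ℝ, l1 = fun q => if (q.divisors.card : ℝ) ^ T ≤ (k : ℝ) ^ S then lam q else 0 := ⟨_, rfl⟩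
  have hl1b : ∀ q, |l1 q| ≤ (k : ℝ) ^ (T + S) := by
    intro q
    rw [hl1, pow_add]
    show |if (q.divisors.card : ℝ) ^ T ≤ (k : ℝ) ^ S then lam q else 0| ≤ _
    split_ifs with h
    · exact (hlam q).trans (mul_le_mul_of_nonneg_left h (by positivity))
    · rw [abs_zero]; positivity
  -- the tail
  have htail : ∀ y : ℕ → ℕ, (∀ q, y q ≤ X') → ∀ a : ℕ, |WW lam y Q a| ≤ |WW l1 y Q a| + X / (k : ℝ) ^ (U + 1) := by
    intro y hy a
    have h1 := tail_le lam y Q a X T ((k : ℝ) ^ T) (Real.log X) ((k : ℝ) ^ S) hQX (fun q => (hy q).trans hX') (by positivity)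
      (by positivity) hlam rfl hL1
    rw [hl1]
    refine h1.trans (add_le_add le_rfl ?_)
    have e1 : 1 + Real.log X ≤ (k : ℝ) ^ 3 := by
      have : (k : ℝ) ^ 3 = (k : ℝ) ^ 2 * k := by ring
      nlinarith [sq_nonneg (k : ℝ)]
    calc 5 * (k : ℝ) ^ T * Real.log X * X / (k : ℝ) ^ S * (1 + Real.log X) ^ (2 ^ (2 * T)) ≤
          k * (k : ℝ) ^ T * (k : ℝ) ^ 2 * X / (k : ℝ) ^ S * ((k : ℝ) ^ 3) ^ (2 ^ (2 * T)) := by
            have : (5 : ℝ) ≤ k := by linarith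
            gcongr
      _ = X * (k : ℝ) ^ (T + 3 + 3 * 2 ^ (2 * T)) / (k : ℝ) ^ S := by
            rw [← pow_mul, pow_add, pow_add]
            ring
      _ ≤ X / (k : ℝ) ^ (U + 1) := by
            rw [div_le_div_iff₀ (by positivity) (by positivity), mul_assoc, ← pow_add]
            apply mul_le_mul_of_nonneg_left _ hX0.le
            exact pow_le_pow_right₀ hk1 (by omega)
  have hW : ∀ (lam : ℕ → ℝ) (x a : ℕ), WW lam (fun _ => x) Q a = W lam Q x a := fun _ _ _ => rfl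
  have hsmall : 2 * (X / (k : ℝ) ^ (U + 1)) ≤ X / (k : ℝ) ^ U - X / (k : ℝ) ^ U₁ := by
    have e1 : X / (k : ℝ) ^ U₁ ≤ X / (k : ℝ) ^ (U + 1) :=
      div_le_div_of_nonneg_left hX0.le (by positivity) (pow_le_pow_right₀ hk1 (by omega))
    have e2 : X / (k : ℝ) ^ U = X / (k : ℝ) ^ (U + 1) * k := by
      rw [pow_succ]
      field_simp
    have e3 : 0 < (X : ℝ) / (k : ℝ) ^ (U + 1) := by positivity
    nlinarith
  constructor
  · intro E hdec hE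
    refine (hyp l1 hl1b E hdec ?_).trans ?_
    · intro ω hω hEω
      obtain ⟨x, hx, hlt⟩ := hE ω hω hEω
      refine ⟨x, hx, ?_⟩
      have h1 := htail (fun _ => x) (fun _ => hx) (a ω)
      rw [hW, hW] at h1
      have h2 : 0 ≤ X / (k : ℝ) ^ (U + 1) := by positivity
      linarith
    · exact one_div_le_one_div_of_le (by positivity) (pow_le_pow_right₀ hk1 (by omega))
  · intro y hy E hdec hE
    obtain ⟨Bd, hBd⟩ : ∃ Bd : ℕ → ι → Prop, ∀ r ω, Bd r ω ↔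
      (X : ℝ) / (k : ℝ) ^ U₁ < |W (fun q => if g (y q) = r then l1 q else 0) Q r (a ω)| := ⟨fun r ω => _, fun _ _ => Iff.rfl⟩
    have hb : ∀ r ∈ R, ∑ ω ∈ Ω, (if Bd r ω then p ω else 0) ≤ 1 / (k : ℝ) ^ U₁ := by
      intro r hr
      apply hyp (fun q => if g (y q) = r then l1 q else 0) _ (Bd r) (fun _ => Classical.propDecidable _)
      · intro ω _ hω
        exact ⟨r, hR2 r hr, (hBd r ω).1 hω⟩
      · intro q
        show |if g (y q) = r then l1 q else 0| ≤ _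
        split_ifs
        · exact hl1b q
        · rw [abs_zero]; positivity
    have hsub : ∀ ω ∈ Ω, (if E ω then p ω else 0) ≤ ∑ r ∈ R, (if Bd r ω then p ω else 0) := by
      intro ω hω
      have hnn : ∀ r ∈ R, (0 : ℝ) ≤ (if Bd r ω then p ω else 0) := by
        intro r _
        split_ifs
        · exact hp ω hω
        · exact le_rfl
      split_ifs with hEω
      · by_contra hcon
        push Not at hcon
        have hall : ∀ r ∈ R, ¬ Bd r ω := by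
          intro r hr hB
          have := single_le_sum hnn hr
          rw [if_pos hB] at this
          linarith
        have h1 := hE ω hω hEω
        have h2 := htail y hy (a ω)
        have h3 := hR3 l1 hl1b y hy (a ω)
        have h4 : ∑ r ∈ R, |W (fun q => if g (y q) = r then l1 q else 0) Q r (a ω)| ≤ X / (k : ℝ) ^ (U + 2) := by
          calc _ ≤ ∑ r ∈ R, (X : ℝ) / (k : ℝ) ^ U₁ := sum_le_sum fun r hr => not_lt.1 (fun h => hall r hr ((hBd r ω).2 h))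
            _ = R.card * (X / (k : ℝ) ^ U₁) := by rw [sum_const, nsmul_eq_mul]
            _ ≤ (k : ℝ) ^ (m + 1) * (X / (k : ℝ) ^ U₁) := mul_le_mul_of_nonneg_right hR1 (by positivity)
            _ = X / (k : ℝ) ^ (U + 2) := by
                rw [hU₁, show U + m + 3 = (m + 1) + (U + 2) by ring, pow_add (k : ℝ) (m + 1) (U + 2)]
                field_simp
        have h5 : X / (k : ℝ) ^ (U + 2) ≤ X / (k : ℝ) ^ (U + 1) :=
          div_le_div_of_nonneg_left hX0.le (by positivity) (pow_le_pow_right₀ hk1 (by omega))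
        have e2 : X / (k : ℝ) ^ U = X / (k : ℝ) ^ (U + 1) * k := by
          rw [pow_succ]
          field_simp
        have e3 : 0 < (X : ℝ) / (k : ℝ) ^ (U + 1) := by positivity
        nlinarith
      · exact sum_nonneg hnn
    refine (sum_le_sum hsub).trans ?_
    rw [sum_comm]
    refine (sum_le_sum hb).trans ?_
    rw [sum_const, nsmul_eq_mul, mul_one_div, div_le_div_iff₀ (by positivity) (by positivity), one_mul]
    calc (R.card : ℝ) * (k : ℝ) ^ U ≤ (k : ℝ) ^ (m + 1) * (k : ℝ) ^ U := mul_le_mul_of_nonneg_right hR1 (by positivity)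
      _ = (k : ℝ) ^ (m + 1 + U) := (pow_add _ _ _).symm
      _ ≤ (k : ℝ) ^ U₁ := pow_le_pow_right₀ hk1 (by omega)

/-- absolute values over the moduli -/
theorem absolute (T U : ℕ) : ∃ T₁ U₁ m k₀ : ℕ, ∀ k : ℕ, k₀ ≤ k → ∀ X X' Q : ℕ, X' ≤ X → 1 ≤ Real.log X → Real.log X ≤ (k : ℝ) ^ 2 →
    (Q : ℝ) * (k : ℝ) ^ m ≤ X → ∀ (ι : Type) (Ω : Finset ι) (p : ι → ℝ), (∀ ω ∈ Ω, 0 ≤ p ω) → ∑ ω ∈ Ω, p ω ≤ 1 → ∀ a : ι → ℕ,
    Hyp k X X' Q T₁ U₁ Ω p a →
    ∀ c : ι → ℝ, (∀ ω, |c ω| ≤ (k : ℝ) ^ T) → ∀ y : ℕ → ℕ, (∀ q, y q ≤ X') →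
      ∑ q ∈ Icc 1 Q, (q.divisors.card : ℝ) ^ T * |∑ ω ∈ Ω.filter (fun ω => (a ω).Coprime q), p ω * (c ω *
        (Fu (fun n => ArithmeticFunction.vonMangoldt n) (y q) q (a ω) - (y q : ℝ) / Nat.totient q))| ≤ X / (k : ℝ) ^ U := by
  classical
  obtain ⟨C, hC⟩ : ∃ C : ℕ, C = 3 + 3 * 2 ^ T := ⟨_, rfl⟩
  obtain ⟨V, hV⟩ : ∃ V, V = U + T + C + 1 := ⟨_, rfl⟩
  obtain ⟨T₁, U₁, m, k0, hh⟩ := heavy T V
  refine ⟨T₁, U₁, m, k0 + 16, fun k hk X X' Q hX' hL1 hL2 hQ ι Ω p hp hp1 a hyp c hc y hy => ?_⟩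
  have hk16 : (16 : ℝ) ≤ k := by exact_mod_cast (by omega : 16 ≤ k)
  have hk0 : (0 : ℝ) < k := by linarith
  have hk1 : (1 : ℝ) ≤ k := by linarith
  have hX0 : (0 : ℝ) < X := by
    rcases Nat.eq_zero_or_pos X with h | h
    · rw [h] at hL1
      norm_num at hL1
    · exact_mod_cast h
  have hQX : Q ≤ X := by
    have : (Q : ℝ) ≤ X := le_trans (le_mul_of_one_le_right (Nat.cast_nonneg _) (one_le_pow₀ hk1)) hQ
    exact_mod_cast this
  obtain ⟨F, hF⟩ : ∃ F : ℕ → ℝ, F = fun q => ∑ ω ∈ Ω.filter (fun ω => (a ω).Coprime q), p ω * (c ω *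
        (Fu (fun n => ArithmeticFunction.vonMangoldt n) (y q) q (a ω) - (y q : ℝ) / Nat.totient q)) := ⟨_, rfl⟩
  obtain ⟨sg, hsg⟩ : ∃ sg : ℕ → ℝ, sg = fun q => if 0 ≤ F q then 1 else -1 := ⟨_, rfl⟩
  have hsg1 : ∀ q, |sg q| = 1 := by
    intro q
    rw [hsg]
    show |if 0 ≤ F q then (1 : ℝ) else -1| = 1
    split_ifs <;> simp
  have hsgF : ∀ q, |F q| = sg q * F q := by
    intro q
    rw [hsg]
    show |F q| = (if 0 ≤ F q then (1 : ℝ) else -1) * F q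
    split_ifs with h
    · rw [abs_of_nonneg h, one_mul]
    · rw [abs_of_neg (not_le.1 h)]; ring
  obtain ⟨lam, hlam⟩ : ∃ lam : ℕ → ℝ, lam = fun q => (q.divisors.card : ℝ) ^ T * sg q := ⟨_, rfl⟩
  have hlamb : ∀ q, |lam q| ≤ (k : ℝ) ^ T * (q.divisors.card : ℝ) ^ T := by
    intro q
    rw [hlam]
    show |(q.divisors.card : ℝ) ^ T * sg q| ≤ _
    rw [abs_mul, hsg1, mul_one, abs_of_nonneg (by positivity)]
    exact le_mul_of_one_le_left (by positivity) (one_le_pow₀ hk1)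
  have hswap : ∑ q ∈ Icc 1 Q, (q.divisors.card : ℝ) ^ T * |F q| = ∑ ω ∈ Ω, p ω * (c ω * WW lam y Q (a ω)) := by
    have e1 : ∀ q ∈ Icc 1 Q, (q.divisors.card : ℝ) ^ T * |F q| = ∑ ω ∈ Ω,
        if (a ω).Coprime q then p ω * (c ω * (lam q *
          (Fu (fun n => ArithmeticFunction.vonMangoldt n) (y q) q (a ω) - (y q : ℝ) / Nat.totient q))) else 0 := by
      intro q _
      rw [hsgF, hF, hlam, ← mul_assoc]
      show (q.divisors.card : ℝ) ^ T * sg q * (∑ ω ∈ Ω.filter (fun ω => (a ω).Coprime q), p ω * (c ω *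
        (Fu (fun n => ArithmeticFunction.vonMangoldt n) (y q) q (a ω) - (y q : ℝ) / Nat.totient q))) = _
      rw [mul_sum, sum_filter]
      apply sum_congr rfl
      intro ω _
      split_ifs
      · ring
      · rfl
    rw [sum_congr rfl e1, sum_comm]
    apply sum_congr rfl
    intro ω _
    unfold WW
    rw [mul_sum, mul_sum, sum_filter]
  have htriv : ∀ ω, |WW lam y Q (a ω)| ≤ X * (k : ℝ) ^ C := by
    intro ω
    unfold WW
    refine (abs_sum_le_sum_abs _ _).trans ?_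
    have h1 : ∑ q ∈ (Icc 1 Q).filter (fun q => (a ω).Coprime q),
        |lam q * (Fu (fun n => ArithmeticFunction.vonMangoldt n) (y q) q (a ω) - (y q : ℝ) / Nat.totient q)| ≤
        ∑ q ∈ Icc 1 Q, 5 * Real.log X * X * ((q.divisors.card : ℝ) ^ T / q) := by
      apply sum_filter_le
      · intro q hq
        rw [mem_Icc] at hq
        have e1 := E_le q (y q) (a ω) X (Real.log X) hq.1 (hq.2.trans hQX) ((hy q).trans hX') rfl hL1
        rw [abs_mul]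
        have e2 : |lam q| = (q.divisors.card : ℝ) ^ T := by
          rw [hlam]
          show |(q.divisors.card : ℝ) ^ T * sg q| = _
          rw [abs_mul, hsg1, mul_one, abs_of_nonneg (by positivity)]
        rw [e2]
        calc _ ≤ (q.divisors.card : ℝ) ^ T * (5 * Real.log X * X * (1 / (q : ℝ))) :=
              mul_le_mul_of_nonneg_left e1 (by positivity)
          _ = _ := by ring
      · intro q _
        have : 0 ≤ Real.log X := by linarith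
        positivity
    refine h1.trans ?_
    rw [← mul_sum]
    have h2 : ∑ q ∈ Icc 1 Q, (q.divisors.card : ℝ) ^ T / q ≤ ∑ q ∈ Icc 1 X, (q.divisors.card : ℝ) ^ T / q :=
      sum_le_sum_of_subset_of_nonneg (Icc_subset_Icc_right hQX) (fun q _ _ => by positivity)
    have h3 := h2.trans (tau_pow_div T X)
    have e1 : 1 + Real.log X ≤ (k : ℝ) ^ 3 := by
      have : (k : ℝ) ^ 3 = (k : ℝ) ^ 2 * k := by ring
      nlinarith [sq_nonneg (k : ℝ)]
    have e0 : 0 ≤ Real.log X := by linarith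
    calc 5 * Real.log X * X * ∑ q ∈ Icc 1 Q, (q.divisors.card : ℝ) ^ T / q ≤
          k * (k : ℝ) ^ 2 * X * ((k : ℝ) ^ 3) ^ (2 ^ T) := by
            have e5 : (5 : ℝ) ≤ k := by linarith
            have e6 : ∑ q ∈ Icc 1 Q, (q.divisors.card : ℝ) ^ T / q ≤ ((k : ℝ) ^ 3) ^ (2 ^ T) :=
              h3.trans (pow_le_pow_left₀ (by linarith) e1 _)
            gcongr
      _ = X * (k : ℝ) ^ C := by
            rw [hC, ← pow_mul, pow_add]
            ring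
  obtain ⟨Bd, hBd⟩ : ∃ Bd : ι → Prop, ∀ ω, Bd ω ↔ (X : ℝ) / (k : ℝ) ^ V < |WW lam y Q (a ω)| := ⟨fun ω => _, fun _ => Iff.rfl⟩
  have hbad : ∑ ω ∈ Ω, (if Bd ω then p ω else 0) ≤ 1 / (k : ℝ) ^ V :=
    (hh k (by omega) X X' Q hX' hL1 hL2 hQ ι Ω p hp a hyp lam hlamb).2 y hy Bd (fun _ => Classical.propDecidable _)
      (fun ω _ h => (hBd ω).1 h)
  have hpt : ∀ ω ∈ Ω, p ω * |WW lam y Q (a ω)| ≤ p ω * (X / (k : ℝ) ^ V) + (if Bd ω then p ω else 0) * (X * (k : ℝ) ^ C) := by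
    intro ω hω
    have hpo := hp ω hω
    split_ifs with h
    · have h1 := mul_le_mul_of_nonneg_left (htriv ω) hpo
      have h2 : 0 ≤ p ω * (X / (k : ℝ) ^ V) := by positivity
      linarith
    · have h1 := mul_le_mul_of_nonneg_left (not_lt.1 (fun h' => h ((hBd ω).2 h'))) hpo
      rw [zero_mul, add_zero]
      exact h1
  have hsum : ∑ ω ∈ Ω, p ω * |WW lam y Q (a ω)| ≤ X / (k : ℝ) ^ V + 1 / (k : ℝ) ^ V * (X * (k : ℝ) ^ C) := by
    refine (sum_le_sum hpt).trans ?_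
    rw [sum_add_distrib, ← sum_mul, ← sum_mul]
    apply add_le_add
    · exact mul_le_of_le_one_left (by positivity) hp1
    · exact mul_le_mul_of_nonneg_right hbad (by positivity)
  have hfin : ∑ q ∈ Icc 1 Q, (q.divisors.card : ℝ) ^ T * |F q| ≤ (k : ℝ) ^ T * (X / (k : ℝ) ^ V + 1 / (k : ℝ) ^ V * (X * (k : ℝ) ^ C)) := by
    rw [hswap]
    calc ∑ ω ∈ Ω, p ω * (c ω * WW lam y Q (a ω)) ≤ ∑ ω ∈ Ω, (k : ℝ) ^ T * (p ω * |WW lam y Q (a ω)|) := by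
          apply sum_le_sum
          intro ω hω
          have h1 : c ω * WW lam y Q (a ω) ≤ (k : ℝ) ^ T * |WW lam y Q (a ω)| := by
            refine (le_abs_self _).trans ?_
            rw [abs_mul]
            exact mul_le_mul_of_nonneg_right (hc ω) (abs_nonneg _)
          have h2 := mul_le_mul_of_nonneg_left h1 (hp ω hω)
          refine h2.trans (le_of_eq ?_)
          ring
      _ = (k : ℝ) ^ T * ∑ ω ∈ Ω, p ω * |WW lam y Q (a ω)| := by rw [mul_sum]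
      _ ≤ _ := mul_le_mul_of_nonneg_left hsum (by positivity)
  rw [hF] at hfin
  refine hfin.trans ?_
  have e1 : (k : ℝ) ^ T * (X / (k : ℝ) ^ V + 1 / (k : ℝ) ^ V * (X * (k : ℝ) ^ C)) = X * ((k : ℝ) ^ T * (1 + (k : ℝ) ^ C)) / (k : ℝ) ^ V := by
    ring
  rw [e1, div_le_div_iff₀ (by positivity) (by positivity), mul_assoc]
  apply mul_le_mul_of_nonneg_left _ hX0.le
  have e2 : 1 ≤ (k : ℝ) ^ C := one_le_pow₀ hk1
  calc (k : ℝ) ^ T * (1 + (k : ℝ) ^ C) * (k : ℝ) ^ U ≤ (k : ℝ) ^ T * (k * (k : ℝ) ^ C) * (k : ℝ) ^ U := by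
        apply mul_le_mul_of_nonneg_right _ (by positivity)
        apply mul_le_mul_of_nonneg_left _ (by positivity)
        nlinarith
    _ = (k : ℝ) ^ V := by
        rw [hV, pow_succ, pow_add, pow_add]
        ring

/-- the sizes -/
lemma scale (b B m : ℕ) (hb : 2 ≤ b) (ε : ℝ) (hε : 0 < ε) : ∃ k₀ : ℕ, ∀ k : ℕ, k₀ ≤ k → ∀ N : ℕ, N = b ^ k →
    1 ≤ Real.log ((B + 1) * N : ℕ) ∧ Real.log ((B + 1) * N : ℕ) ≤ (k : ℝ) ^ 2 ∧
    ((⌊(N : ℝ) ^ (1 - ε)⌋₊ : ℕ) : ℝ) * (k : ℝ) ^ m ≤ ((B + 1) * N : ℕ) ∧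
    ∀ U : ℕ, (((B + 1) * N : ℕ) : ℝ) / (k : ℝ) ^ (U + 1) ≤ N / (k : ℝ) ^ U := by
  obtain ⟨k₁, H3⟩ := pow_small ε (2 ^ m) hε m
  obtain ⟨K2, hK2⟩ := exists_nat_ge (Real.log ((B : ℝ) + 1) + Real.log b + 1)
  refine ⟨k₁ + K2 + B + 4, fun k hk N hN => ?_⟩
  have hk4 : (4 : ℝ) ≤ k := by exact_mod_cast (by omega : 4 ≤ k)
  have hk0 : (0 : ℝ) < k := by linarith
  have hb2 : (2 : ℝ) ≤ b := by exact_mod_cast hb
  have hN1 : 1 ≤ N := by rw [hN]; exact Nat.one_le_pow _ _ (by omega)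
  have hN0 : (0 : ℝ) < N := by exact_mod_cast hN1
  have hkN : k ≤ N := by rw [hN]; exact (Nat.lt_pow_self (by omega)).le
  have hlogN : Real.log N = k * Real.log b := by rw [hN]; push_cast; rw [Real.log_pow]
  have hlb : 1 / 2 ≤ Real.log b := by
    have h1 : Real.log 2 ≤ Real.log b := Real.log_le_log (by norm_num) hb2
    have h2 := Real.log_two_gt_d9
    linarith
  have hlB : 0 ≤ Real.log ((B : ℝ) + 1) := Real.log_nonneg (by linarith [(Nat.cast_nonneg B : (0 : ℝ) ≤ B)])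
  have hlX : Real.log ((B + 1) * N : ℕ) = Real.log ((B : ℝ) + 1) + k * Real.log b := by
    push_cast
    rw [Real.log_mul (by positivity) hN0.ne', hlogN]
  have hK2k : (K2 : ℝ) ≤ k := by exact_mod_cast (by omega : K2 ≤ k)
  refine ⟨?_, ?_, ?_, ?_⟩
  · rw [hlX]
    nlinarith
  · rw [hlX]
    have e1 : Real.log ((B : ℝ) + 1) ≤ k * Real.log ((B : ℝ) + 1) := le_mul_of_one_le_left hlB (by linarith)
    have e2 : k * (Real.log ((B : ℝ) + 1) + Real.log b) ≤ k * k := mul_le_mul_of_nonneg_left (by linarith) hk0.le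
    nlinarith
  · have h3 := H3 N (by omega)
    have h4 : (k : ℝ) ^ m ≤ (N : ℝ) ^ ε := by
      refine le_trans ?_ h3
      rw [← mul_pow]
      apply pow_le_pow_left₀ hk0.le
      rw [hlogN]
      nlinarith
    have h5 : ((⌊(N : ℝ) ^ (1 - ε)⌋₊ : ℕ) : ℝ) ≤ (N : ℝ) ^ (1 - ε) := Nat.floor_le (by positivity)
    calc ((⌊(N : ℝ) ^ (1 - ε)⌋₊ : ℕ) : ℝ) * (k : ℝ) ^ m ≤ (N : ℝ) ^ (1 - ε) * (N : ℝ) ^ ε :=
          mul_le_mul h5 h4 (by positivity) (by positivity)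
      _ = N := by rw [← Real.rpow_add hN0, show 1 - ε + ε = 1 by ring, Real.rpow_one]
      _ ≤ ((B + 1) * N : ℕ) := by exact_mod_cast Nat.le_mul_of_pos_left N (by omega : 0 < B + 1)
  · intro U
    rw [div_le_div_iff₀ (by positivity) (by positivity)]
    have e1 : ((B : ℝ) + 1) ≤ k := by exact_mod_cast (by omega : B + 1 ≤ k)
    push_cast
    calc ((B : ℝ) + 1) * N * (k : ℝ) ^ U ≤ k * N * (k : ℝ) ^ U := by gcongr
      _ = N * (k : ℝ) ^ (U + 1) := by ring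

end Pool.Agent.TH872.GQ
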