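import Pool.Agent.TH935.GF
import Pool.Agent.TH935.GF2
import Pool.Agent.TH872.GQ.Fam

set_option autoImplicit false

/-! Goldbach pairs in windows, for the values of quadratic polynomials at integers with restricted digits. -/

namespace Pool.Agent.TH872.GQ
open Finset
open Pool.Agent.TH872.Sq

theorem win_quad (b B A U m₀ : ℕ) (hb : 2 ≤ b) (κ β : ℤ) (hκ : κ ≠ 0) (ε : ℝ) (hε : 0 < ε) (Q : ℕ → Prop)
    (hQ : ∀ m : ℕ, m₀ ≤ m → 2 ∣ m → Pool.Agent.W93.PG.WinP ε A m → Q m) :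
    ∃ k₀ : ℕ, ∀ k : ℕ, k₀ ≤ k → ∀ D : ℕ → Finset ℕ, (∀ i < k, D i ⊆ range b ∧ 2 ≤ (D i).card) →
      ∀ c : ℤ, |c| ≤ B * (b : ℤ) ^ (2 * k) → ∀ P : ℕ → Prop, [DecidablePred P] →
      (∀ n, P n → 0 < value κ β c n ∧ Even (value κ β c n) ∧ ¬ Q (value κ β c n).toNat) →
      (((S b D k).filter P).card : ℝ) ≤ (S b D k).card / (k : ℝ) ^ U := by
  classical
  obtain ⟨h, B', k1, hh, hB1, hBB, hfam⟩ := fam b hb κ β hκ B
  obtain ⟨n3, h3⟩ := Pool.Agent.TH935.GF.transfer h 1 1 U Q (by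
    intro B C U
    exact Pool.Agent.TH935.GF.fam_win h B C A U m₀ hh ε hε Q hQ)
  refine ⟨k1 + n3 + 2, fun k hk D hD c hc P _ hP => ?_⟩
  obtain ⟨f1, f2, f3, f4⟩ := hfam k (by omega) D hD c hc
  obtain ⟨N, hN⟩ : ∃ N : ℕ, N = B' * b ^ (2 * k) := ⟨_, rfl⟩
  have hkN : k ≤ N := by
    rw [hN]
    calc k ≤ 2 * k := by omega
      _ ≤ b ^ (2 * k) := (Nat.lt_pow_self (by omega)).le
      _ ≤ _ := Nat.le_mul_of_pos_left _ (by omega)
  rw [← hN] at f1 f2 f3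
  have hfc : Fintype.card {n // n ∈ S b D k} = (S b D k).card := Fintype.card_coe _
  have r2 := h3 N (by omega) {n // n ∈ S b D k} (fun i => value κ β c i.1) (fun i => by
    have := (abs_le.1 (f1 i)).2
    push_cast
    linarith) f2 (univ.filter (fun i => P i.1)) (fun i hi => hP i.1 (mem_filter.1 hi).2)
  rw [hfc] at r2
  have r3 := r2.trans (pow_of_log _ _ (Nat.cast_nonneg _) k U (by omega) f3)
  exact conv (S b D k) P (fun i => P i.1) (fun i hi => hi) _ r3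

end Pool.Agent.TH872.GQ
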