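import Pool.Agent.TH872.Sq.W19

set_option autoImplicit false

/-! Weighted sums over one summand, for every constant term. -/

namespace Pool.Agent.TH872.GQ
open Finset
open Pool.Agent.H807R2.Dav
open Pool.Agent.H373R2.T7
open Pool.Agent.W93.DG
open Pool.Agent.TH872.Sq

lemma sum_shift (A X : ℕ) (N₀ : ℤ) (h1 : |N₀| + A ≤ X) (g : ℤ → ℝ) (hg : ∀ c, 0 ≤ g c) :
    ∑ a ∈ Icc 1 A, g (N₀ - (a : ℤ)) ≤ g 0 + ∑ c ∈ Icc 1 X, g (1 * (c : ℤ)) + ∑ c ∈ Icc 1 X, g (-1 * (c : ℤ)) := by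
  classical
  have hinj : ∑ a ∈ Icc 1 A, g (N₀ - (a : ℤ)) = ∑ c ∈ (Icc 1 A).image (fun a : ℕ => N₀ - (a : ℤ)), g c := by
    rw [sum_image]
    intro x _ y _ h
    have : (x : ℤ) = y := by linarith
    exact_mod_cast this
  have hsub : (Icc 1 A).image (fun a : ℕ => N₀ - (a : ℤ)) ⊆
      ({0} : Finset ℤ) ∪ ((Icc 1 X).image (fun c : ℕ => 1 * (c : ℤ)) ∪ (Icc 1 X).image (fun c : ℕ => -1 * (c : ℤ))) := by
    intro c hc
    obtain ⟨a, ha, rfl⟩ := mem_image.1 hc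
    rw [mem_Icc] at ha
    have h2 := abs_le.1 (le_refl |N₀|)
    have ha1 : (a : ℤ) ≤ A := by exact_mod_cast ha.2
    rcases lt_trichotomy (N₀ - (a : ℤ)) 0 with h | h | h
    · apply mem_union_right
      apply mem_union_right
      rw [mem_image]
      refine ⟨(-(N₀ - (a : ℤ))).toNat, ?_, ?_⟩
      · rw [mem_Icc]
        constructor <;> omega
      · rw [Int.toNat_of_nonneg (by omega)]
        ring
    · rw [h]
      simp
    · apply mem_union_right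
      apply mem_union_left
      rw [mem_image]
      refine ⟨(N₀ - (a : ℤ)).toNat, ?_, ?_⟩
      · rw [mem_Icc]
        constructor <;> omega
      · rw [Int.toNat_of_nonneg (by omega)]
        ring
  rw [hinj]
  refine (sum_le_sum_of_subset_of_nonneg hsub (fun c _ _ => hg c)).trans ?_
  have hu : ∀ s t : Finset ℤ, ∑ c ∈ s ∪ t, g c ≤ ∑ c ∈ s, g c + ∑ c ∈ t, g c := by
    intro s t
    rw [← sum_union_inter]
    have : 0 ≤ ∑ c ∈ s ∩ t, g c := sum_nonneg fun c _ => hg c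
    linarith
  refine (hu _ _).trans ?_
  rw [sum_singleton, add_assoc]
  apply add_le_add le_rfl
  refine (hu _ _).trans (le_of_eq ?_)
  rw [sum_image (by
    intro x _ y _ h
    have h' : 1 * (x : ℤ) = 1 * (y : ℤ) := h
    have : (x : ℤ) = y := by linarith
    exact_mod_cast this), sum_image (by
    intro x _ y _ h
    have h' : -1 * (x : ℤ) = -1 * (y : ℤ) := h
    have : (x : ℤ) = y := by linarith
    exact_mod_cast this)]

/-- **Every constant term, arbitrary weights on one summand.** -/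
theorem weighted (b : ℕ) (hb : 2 ≤ b) (η : ℝ) (hη : 0 < η) (κ β : ℤ) (hκ : κ ≠ 0) (F U : ℕ) :
    ∃ B : ℕ, ∀ E : ℕ, ∃ K₀ : ℕ, ∀ k : ℕ, K₀ ≤ k → ∀ z : ℕ, (k : ℝ) ^ B ≤ z → (z : ℝ) ≤ (k : ℝ) ^ E →
    ∀ w : ℕ → ℕ → ℝ, Dig b η w → ∀ i : ℕ, ∀ N₀ : ℤ, |N₀| ≤ F * (b : ℤ) ^ (2 * k) → ∀ A : ℕ, A ≤ F * b ^ (2 * k) →
    ∀ ω : ℕ → ℝ, (∀ a ∈ Icc 1 A, |ω a| ≤ 1) →
    ∑ n ∈ range (b ^ k), P b w i k n * |∑ a ∈ Icc 1 A, ω a * (lamI (N₀ + qv κ β n - a) - lamzI z (N₀ + qv κ β n - a))| ≤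
      ((b ^ (2 * k) : ℕ) : ℝ) / (k : ℝ) ^ U := by
  obtain ⟨B, hB⟩ := one_lam b hb η hη κ β hκ (2 * F) (U + 1)
  refine ⟨B, fun E => ?_⟩
  obtain ⟨K1, h1⟩ := hB E
  obtain ⟨F₁, hF₁⟩ : ∃ F₁ : ℕ, F₁ = 1 + rg κ β 0 := ⟨_, rfl⟩
  obtain ⟨K2, hK2⟩ := log_bounds b F₁ hb (by omega)
  obtain ⟨N3, hN3⟩ := Vz_inv_small E
  -- growth
  have hgrow : ∃ K4 : ℕ, ∀ k : ℕ, K4 ≤ k → 2 * (k : ℝ) ^ 2 ≤ ((b ^ (2 * k) : ℕ) : ℝ) / (k : ℝ) ^ (U + 1) := by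
    have hb1 : (1 : ℝ) < (b : ℝ) := by exact_mod_cast (by omega : 1 < b)
    have h2 := tendsto_pow_const_div_const_pow_of_one_lt (U + 3) (r := (b : ℝ)) hb1
    have h3 := h2.eventually (gt_mem_nhds (show (0 : ℝ) < 1 / 2 by norm_num))
    rw [Filter.eventually_atTop] at h3
    obtain ⟨K4, h4⟩ := h3
    refine ⟨K4 + 1, fun k hk => ?_⟩
    have hk0 : (0 : ℝ) < k := by exact_mod_cast (by omega : 0 < k)
    have h5 := h4 k (by omega)
    have hbk : (0 : ℝ) < (b : ℝ) ^ k := by positivity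
    rw [div_lt_div_iff₀ hbk (by norm_num)] at h5
    rw [le_div_iff₀ (by positivity)]
    push_cast
    have h6 : (b : ℝ) ^ k ≤ (b : ℝ) ^ (2 * k) := pow_le_pow_right₀ hb1.le (by omega)
    have h7 : 2 * (k : ℝ) ^ 2 * (k : ℝ) ^ (U + 1) = (k : ℝ) ^ (U + 3) * 2 := by ring
    rw [h7]
    linarith
  obtain ⟨K4, hK4⟩ := hgrow
  refine ⟨K1 + K2 + N3 + K4 + 4, fun k hk z hz1 hz2 w hw i N₀ hN₀ A hA ω hω => ?_⟩
  have hk4 : (4 : ℝ) ≤ k := by exact_mod_cast (by omega : 4 ≤ k)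
  have hk0 : (0 : ℝ) < k := by linarith
  obtain ⟨hl1, hl2⟩ := hK2 k (by omega)
  have hP0 := fun n => P_nonneg hw i k n
  obtain ⟨Δ, hΔ⟩ : ∃ Δ : ℤ → ℝ, ∀ x, Δ x = lamI x - lamzI z x := ⟨_, fun _ => rfl⟩
  obtain ⟨T, hT⟩ : ∃ T : ℕ → ℝ, ∀ n, T n = ∑ a ∈ Icc 1 A, ω a * Δ (N₀ + qv κ β n - a) := ⟨_, fun _ => rfl⟩
  obtain ⟨G, hG⟩ : ∃ G : ℕ → ℝ, ∀ n, G n = if 0 ≤ T n then 1 else -1 := ⟨_, fun _ => rfl⟩
  have hG1 : ∀ n, |G n| ≤ 1 := by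
    intro n
    rw [hG]
    split_ifs <;> norm_num
  have hGT : ∀ n, |T n| = G n * T n := by
    intro n
    rw [hG]
    split_ifs with h
    · rw [abs_of_nonneg h, one_mul]
    · rw [abs_of_neg (not_le.1 h)]
      ring
  obtain ⟨g, hg⟩ : ∃ g : ℤ → ℝ, ∀ c, g c = |∑ n ∈ range (b ^ k), P b w i k n * (G n * Δ (qv κ β n + c))| := ⟨_, fun _ => rfl⟩
  have hg0 : ∀ c, 0 ≤ g c := fun c => by rw [hg]; exact abs_nonneg _
  have e0 : ∑ n ∈ range (b ^ k), P b w i k n * |∑ a ∈ Icc 1 A, ω a * (lamI (N₀ + qv κ β n - a) - lamzI z (N₀ + qv κ β n - a))| =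
      ∑ n ∈ range (b ^ k), P b w i k n * |T n| := by
    apply sum_congr rfl
    intro n _
    rw [hT]
    simp only [hΔ]
  have e1 : ∑ n ∈ range (b ^ k), P b w i k n * |T n| = ∑ a ∈ Icc 1 A, ω a * ∑ n ∈ range (b ^ k), P b w i k n * (G n * Δ (qv κ β n + (N₀ - (a : ℤ)))) := by
    have h2 : ∀ n ∈ range (b ^ k), P b w i k n * |T n| = ∑ a ∈ Icc 1 A, ω a * (P b w i k n * (G n * Δ (qv κ β n + (N₀ - (a : ℤ))))) := by
      intro n _
      rw [hGT, hT, mul_sum, mul_sum]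
      apply sum_congr rfl
      intro a _
      rw [show N₀ + qv κ β n - (a : ℤ) = qv κ β n + (N₀ - (a : ℤ)) by ring]
      ring
    rw [sum_congr rfl h2, sum_comm]
    apply sum_congr rfl
    intro a _
    rw [mul_sum]
  have e2 : ∑ a ∈ Icc 1 A, ω a * ∑ n ∈ range (b ^ k), P b w i k n * (G n * Δ (qv κ β n + (N₀ - (a : ℤ)))) ≤
      ∑ a ∈ Icc 1 A, g (N₀ - (a : ℤ)) := by
    apply sum_le_sum
    intro a ha
    rw [hg]
    refine (le_abs_self _).trans ?_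
    rw [abs_mul]
    exact mul_le_of_le_one_left (abs_nonneg _) (hω a ha)
  have e3 := sum_shift A (2 * F * b ^ (2 * k)) N₀ (by
    have h2 : (A : ℤ) ≤ ((F * b ^ (2 * k) : ℕ) : ℤ) := by exact_mod_cast hA
    push_cast at h2 ⊢
    linarith) g hg0
  have e4 : ∀ σ : ℤ, (σ = 1 ∨ σ = -1) → ∑ c ∈ Icc 1 (2 * F * b ^ (2 * k)), g (σ * (c : ℤ)) ≤ ((b ^ (2 * k) : ℕ) : ℝ) / (k : ℝ) ^ (U + 1) := by
    intro σ hσ
    have h2 := h1 k (by omega) z hz1 hz2 w hw i σ hσ (2 * F * b ^ (2 * k)) le_rfl G hG1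
    refine le_trans (le_of_eq ?_) h2
    apply sum_congr rfl
    intro c _
    rw [hg]
    simp only [hΔ]
  have e5 : g 0 ≤ ((b ^ (2 * k) : ℕ) : ℝ) / (k : ℝ) ^ (U + 1) := by
    refine le_trans ?_ (hK4 k (by omega))
    rw [hg]
    refine (abs_sum_le_sum_abs _ _).trans ?_
    obtain ⟨N, hN⟩ : ∃ N, N = F₁ * b ^ (2 * k) := ⟨_, rfl⟩
    rw [← hN] at hl1 hl2
    have hkN : k ≤ N := by
      rw [hN]
      calc k ≤ 2 * k := by omega
        _ ≤ b ^ (2 * k) := (Nat.lt_pow_self (by omega)).le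
        _ ≤ _ := Nat.le_mul_of_pos_left _ (by omega)
    have hz : 1 ≤ z := by
      have h1 : (1 : ℝ) ≤ (k : ℝ) ^ B := one_le_pow₀ (by linarith)
      exact_mod_cast h1.trans hz1
    have hV : (Vz z)⁻¹ ≤ (k : ℝ) ^ 2 := (hN3 N (by omega) z hz (hz2.trans (pow_le_pow_left₀ hk0.le hl1 E))).trans hl2
    have hΔb : ∀ n ∈ range (b ^ k), |Δ (qv κ β n + 0)| ≤ 2 * (k : ℝ) ^ 2 := by
      intro n hn
      have h2 := any_up κ β 1 0 b k n 0 0 (Or.inl rfl) (mem_range.1 hn) le_rfl (by omega)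
      rw [dg_ne hκ] at h2
      have h3 : ((qv κ β n + 0 : ℤ) : ℝ) ≤ N := by
        have h4 : qv κ β n + 0 ≤ ((N : ℕ) : ℤ) := by
          rw [hN]
          refine le_trans ?_ (show ((rg κ β 0 * b ^ (2 * k) : ℕ) : ℤ) ≤ ((F₁ * b ^ (2 * k) : ℕ) : ℤ) by
            exact_mod_cast Nat.mul_le_mul_right _ (by omega))
          simpa using h2
        exact_mod_cast h4
      have h5 := lamI_le (qv κ β n + 0) N (by exact_mod_cast (by omega : 1 ≤ N)) h3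
      have h6 := lamzI_le z (qv κ β n + 0)
      have h7 := lamI_nonneg (qv κ β n + 0)
      have h8 := lamzI_nonneg z (qv κ β n + 0)
      rw [hΔ, abs_le]
      constructor <;> linarith
    have h9 : ∀ n ∈ range (b ^ k), |P b w i k n * (G n * Δ (qv κ β n + 0))| ≤ P b w i k n * (2 * (k : ℝ) ^ 2) := by
      intro n hn
      rw [abs_mul, abs_of_nonneg (hP0 n), abs_mul]
      apply mul_le_mul_of_nonneg_left _ (hP0 n)
      calc |G n| * |Δ (qv κ β n + 0)| ≤ 1 * (2 * (k : ℝ) ^ 2) := mul_le_mul (hG1 n) (hΔb n hn) (abs_nonneg _) zero_le_one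
        _ = _ := one_mul _
    refine (sum_le_sum h9).trans (le_of_eq ?_)
    rw [← sum_mul, P_sum (by omega) hw, one_mul]
  have e6 : ((b ^ (2 * k) : ℕ) : ℝ) / (k : ℝ) ^ (U + 1) * 3 ≤ ((b ^ (2 * k) : ℕ) : ℝ) / (k : ℝ) ^ U := by
    have h2 : ((b ^ (2 * k) : ℕ) : ℝ) / (k : ℝ) ^ (U + 1) * 3 = ((b ^ (2 * k) : ℕ) : ℝ) / (k : ℝ) ^ U * (3 / k) := by
      rw [pow_succ]
      field_simp
    rw [h2]
    apply mul_le_of_le_one_right (by positivity)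
    rw [div_le_one hk0]
    linarith
  have e7 := e4 1 (Or.inl rfl)
  have e8 := e4 (-1) (Or.inr rfl)
  rw [e0, e1]
  refine e2.trans (e3.trans ?_)
  linarith

end Pool.Agent.TH872.GQ
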