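import Pool.Agent.TH872.GQ.C1
import Pool.Agent.TH872.Mir4

set_option autoImplicit false

/-! Goldbach's conjecture for quadratic polynomials at integers with restricted digits. -/

namespace Pool.Agent.TH872.GQ
open Finset
open Pool.Agent.H807R2.Dav
open Pool.Agent.H373R2.T7
open Pool.Agent.W93.DG
open Pool.Agent.TH872.Sq

/-- values on one side of the vertex are well spaced -/
lemma same_side (κ β N₀ : ℤ) (hκ : κ ≠ 0) (n n' : ℕ) (M : ℤ) (hM : 0 < M) (hnn : n ≤ n')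
    (hs : (0 ≤ 2 * κ * n + β ∧ 0 ≤ 2 * κ * n' + β) ∨ (2 * κ * n + β < 0 ∧ 2 * κ * n' + β < 0))
    (h1 : 1 ≤ N₀ + qv κ β n) (h2 : N₀ + qv κ β n < M ^ 2) (h3 : 1 ≤ N₀ + qv κ β n') (h4 : N₀ + qv κ β n' < M ^ 2) :
    (n' : ℤ) - n < M := by
  unfold qv at h1 h2 h3 h4
  obtain ⟨d, hd⟩ : ∃ d : ℤ, d = (n' : ℤ) - n := ⟨_, rfl⟩
  have hn' : (n' : ℤ) = n + d := by rw [hd]; ring
  have hd0 : 0 ≤ d := by
    have : (n : ℤ) ≤ n' := by exact_mod_cast hnn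
    linarith
  rw [hn'] at hs h3 h4
  rw [← hd]
  obtain ⟨s, hs'⟩ : ∃ s : ℤ, s = 2 * κ * n + β := ⟨_, rfl⟩
  have e1 : 2 * κ * ((n : ℤ) + d) + β = s + 2 * κ * d := by rw [hs']; ring
  rw [e1, ← hs'] at hs
  have e2 : 2 * ((N₀ + (κ * ((n : ℤ) + d) ^ 2 + β * (n + d))) - (N₀ + (κ * (n : ℤ) ^ 2 + β * n))) = d * (s + (s + 2 * κ * d)) := by
    rw [hs']; ring
  have hkey : d ^ 2 < M ^ 2 := by
    rcases lt_or_gt_of_ne hκ with hk | hk
    · have hkd : κ * d ≤ -1 * d := mul_le_mul_of_nonneg_right (by omega) hd0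
      rcases hs with ⟨ha, hb⟩ | ⟨ha, hb⟩
      · have : 2 * d ≤ s + (s + 2 * κ * d) := by nlinarith
        nlinarith
      · have : s + (s + 2 * κ * d) ≤ -(2 * d) := by nlinarith
        nlinarith
    · have hkd : 1 * d ≤ κ * d := mul_le_mul_of_nonneg_right (by omega) hd0
      rcases hs with ⟨ha, hb⟩ | ⟨ha, hb⟩
      · have : 2 * d ≤ s + (s + 2 * κ * d) := by nlinarith
        nlinarith
      · have : s + (s + 2 * κ * d) ≤ -(2 * d) := by nlinarith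
        nlinarith
  exact lt_of_pow_lt_pow_left₀ 2 hM.le hkey

/-- a set of integers of small diameter in `SD` is small -/
lemma diam_small (b : ℕ) (hb : 2 ≤ b) (D : ℕ → Finset ℕ) (m j : ℕ) (hD : ∀ i < m + j, D i ⊆ range b ∧ 2 ≤ (D i).card)
    (Q : ℕ → Prop) [DecidablePred Q]
    (hQ : ∀ n n' : ℕ, Q n → Q n' → n ≤ n' → (n' : ℤ) - n < (b : ℤ) ^ m) :
    (((SD b D (m + j)).filter Q).card : ℝ) ≤ 2 * (((SD b D (m + j)).card : ℝ) * (1 / 2) ^ j) := by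
  classical
  rcases ((SD b D (m + j)).filter Q).eq_empty_or_nonempty with h0 | h0
  · rw [h0, card_empty, Nat.cast_zero]
    positivity
  · obtain ⟨n₀, hn₀⟩ : ∃ n₀, n₀ = ((SD b D (m + j)).filter Q).min' h0 := ⟨_, rfl⟩
    have hm0 := min'_mem _ h0
    rw [← hn₀, mem_filter] at hm0
    have hbm : 0 < b ^ m := Nat.pow_pos (by omega)
    have hsub : (SD b D (m + j)).filter Q ⊆ (SD b D (m + j)).filter (fun n => n / b ^ m = n₀ / b ^ m) ∪
        (SD b D (m + j)).filter (fun n => n / b ^ m = n₀ / b ^ m + 1) := by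
      intro n hn
      have hle : n₀ ≤ n := by
        rw [hn₀]
        exact min'_le _ _ hn
      rw [mem_filter] at hn
      have h1 := hQ n₀ n hm0.2 hn.2 hle
      have h2 : n < n₀ + b ^ m := by
        have : (n : ℤ) < n₀ + (b : ℤ) ^ m := by linarith
        exact_mod_cast this
      have h3 : n₀ / b ^ m ≤ n / b ^ m := Nat.div_le_div_right hle
      have h4 : n / b ^ m ≤ (n₀ + b ^ m) / b ^ m := Nat.div_le_div_right h2.le
      rw [Nat.add_div_right _ hbm] at h4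
      rw [mem_union, mem_filter, mem_filter]
      have h5 : n / b ^ m = n₀ / b ^ m ∨ n / b ^ m = n₀ / b ^ m + 1 := by omega
      rcases h5 with h5 | h5
      · exact Or.inl ⟨hn.1, h5⟩
      · exact Or.inr ⟨hn.1, h5⟩
    have h1 := prefix_small b hb D m j hD (n₀ / b ^ m)
    have h2 := prefix_small b hb D m j hD (n₀ / b ^ m + 1)
    have h3 : (((SD b D (m + j)).filter Q).card : ℝ) ≤ (((SD b D (m + j)).filter (fun n => n / b ^ m = n₀ / b ^ m)).card : ℝ) +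
        (((SD b D (m + j)).filter (fun n => n / b ^ m = n₀ / b ^ m + 1)).card : ℝ) := by
      exact_mod_cast (card_le_card hsub).trans (card_union_le _ _)
    linarith

/-- small values are rare -/
theorem few_small (b : ℕ) (hb : 2 ≤ b) (κ β : ℤ) (hκ : κ ≠ 0) (U : ℕ) : ∃ W K₀ : ℕ, ∀ k : ℕ, K₀ ≤ k →
    ∀ D : ℕ → Finset ℕ, (∀ i < k, D i ⊆ range b ∧ 2 ≤ (D i).card) → ∀ N₀ : ℤ, ∀ Q : ℕ → Prop, [DecidablePred Q] →
    (∀ n, Q n → 1 ≤ N₀ + qv κ β n ∧ ((N₀ + qv κ β n : ℤ) : ℝ) < ((b ^ (2 * k) : ℕ) : ℝ) / Real.log ((b ^ (2 * k) : ℕ) : ℝ) ^ W) →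
    (((SD b D k).filter Q).card : ℝ) ≤ ((SD b D k).card : ℝ) / (k : ℝ) ^ (U + 1) := by
  classical
  obtain ⟨τ, hτ⟩ : ∃ τ : ℕ, τ = 2 * b * (U + 1) + 2 := ⟨_, rfl⟩
  obtain ⟨K1, hK1⟩ := log_bounds b 1 hb le_rfl
  obtain ⟨K2, hK2⟩ := Pool.Agent.TH872.Mir.room b hb τ 0
  refine ⟨2 * τ, K1 + K2 + b, fun k hk D hD N₀ Q _ hQ => ?_⟩
  obtain ⟨hl1, _⟩ := hK1 k (by omega)
  rw [one_mul] at hl1
  have hroom := hK2 k (by omega)
  obtain ⟨Lg, hLg⟩ : ∃ Lg, Lg = Nat.log b k := ⟨_, rfl⟩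
  rw [← hLg] at hroom
  have hLg1 : 1 ≤ Lg := by
    rw [hLg]
    exact Nat.log_pos (by omega) (by omega)
  obtain ⟨j, hj⟩ : ∃ j, j = τ * Lg := ⟨_, rfl⟩
  have hjk : j ≤ k := by
    rw [hj]
    nlinarith
  obtain ⟨m, hm⟩ : ∃ m, k = m + j := ⟨k - j, by omega⟩
  have hk1 : 1 ≤ k := by omega
  have hk1r : (1 : ℝ) ≤ k := by exact_mod_cast hk1
  have hk0 : (0 : ℝ) < k := by linarith
  have hbr : (0 : ℝ) < b := by exact_mod_cast (by omega : 0 < b)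
  -- the range of the values
  have hbj : (b : ℝ) ^ (2 * j) ≤ Real.log ((b ^ (2 * k) : ℕ) : ℝ) ^ (2 * τ) := by
    have h1 : (b : ℝ) ^ Lg ≤ k := by
      rw [hLg]
      exact_mod_cast Nat.pow_log_le_self b (by omega)
    calc (b : ℝ) ^ (2 * j) = ((b : ℝ) ^ Lg) ^ (2 * τ) := by
          rw [← pow_mul, hj]
          congr 1
          ring
      _ ≤ (k : ℝ) ^ (2 * τ) := pow_le_pow_left₀ (by positivity) h1 _
      _ ≤ _ := pow_le_pow_left₀ hk0.le hl1 _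
  have hval : ∀ n, Q n → N₀ + qv κ β n < ((b : ℤ) ^ m) ^ 2 := by
    intro n hn
    have h1 := (hQ n hn).2
    have h2 : ((b ^ (2 * k) : ℕ) : ℝ) / Real.log ((b ^ (2 * k) : ℕ) : ℝ) ^ (2 * τ) ≤ ((b : ℝ) ^ m) ^ 2 := by
      have hlp : 0 < Real.log ((b ^ (2 * k) : ℕ) : ℝ) := by linarith
      rw [div_le_iff₀ (by positivity)]
      have h3 : ((b ^ (2 * k) : ℕ) : ℝ) = ((b : ℝ) ^ m) ^ 2 * (b : ℝ) ^ (2 * j) := by
        push_cast
        rw [hm, ← pow_mul, ← pow_add]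
        congr 1
        ring
      calc ((b ^ (2 * k) : ℕ) : ℝ) = ((b : ℝ) ^ m) ^ 2 * (b : ℝ) ^ (2 * j) := h3
        _ ≤ _ := mul_le_mul_of_nonneg_left hbj (by positivity)
    have h3 := lt_of_lt_of_le h1 h2
    exact_mod_cast h3
  have hbm : (0 : ℤ) < (b : ℤ) ^ m := by
    have : (0 : ℤ) < b := by exact_mod_cast (by omega : 0 < b)
    positivity
  have hA := diam_small b hb D m j (by rw [← hm]; exact hD) (fun n => Q n ∧ 0 ≤ 2 * κ * n + β) (by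
    intro n n' h1 h2 h3
    exact same_side κ β N₀ hκ n n' _ hbm h3 (Or.inl ⟨h1.2, h2.2⟩) (hQ n h1.1).1 (hval n h1.1) (hQ n' h2.1).1 (hval n' h2.1))
  have hB := diam_small b hb D m j (by rw [← hm]; exact hD) (fun n => Q n ∧ 2 * κ * n + β < 0) (by
    intro n n' h1 h2 h3
    exact same_side κ β N₀ hκ n n' _ hbm h3 (Or.inr ⟨h1.2, h2.2⟩) (hQ n h1.1).1 (hval n h1.1) (hQ n' h2.1).1 (hval n' h2.1))
  rw [← hm] at hA hB
  have hsub : (SD b D k).filter Q ⊆ (SD b D k).filter (fun n => Q n ∧ 0 ≤ 2 * κ * n + β) ∪ (SD b D k).filter (fun n => Q n ∧ 2 * κ * n + β < 0) := by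
    intro n hn
    rw [mem_filter] at hn
    rw [mem_union, mem_filter, mem_filter]
    rcases le_or_gt 0 (2 * κ * n + β) with h | h
    · exact Or.inl ⟨hn.1, hn.2, h⟩
    · exact Or.inr ⟨hn.1, hn.2, h⟩
  have h1 : (((SD b D k).filter Q).card : ℝ) ≤ (((SD b D k).filter (fun n => Q n ∧ 0 ≤ 2 * κ * n + β)).card : ℝ) +
      (((SD b D k).filter (fun n => Q n ∧ 2 * κ * n + β < 0)).card : ℝ) := by
    exact_mod_cast (card_le_card hsub).trans (card_union_le _ _)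
  -- the number of prefixes
  have hpow : 4 * (k : ℝ) ^ (U + 1) ≤ 2 ^ j := by
    have h2 : k < b ^ (Lg + 1) := by
      rw [hLg]
      exact Nat.lt_pow_succ_log_self (by omega) k
    have h3 : b ≤ 2 ^ b := Nat.lt_two_pow_self.le
    have h4 : k ≤ 2 ^ (2 * b * Lg) := by
      calc k ≤ b ^ (Lg + 1) := h2.le
        _ ≤ b ^ (2 * Lg) := Nat.pow_le_pow_right (by omega) (by omega)
        _ ≤ (2 ^ b) ^ (2 * Lg) := Nat.pow_le_pow_left h3 _
        _ = 2 ^ (2 * b * Lg) := by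
            rw [← pow_mul]
            congr 1
            ring
    have h5 : 4 * k ^ (U + 1) ≤ 2 ^ j := by
      calc 4 * k ^ (U + 1) ≤ 2 ^ 2 * (2 ^ (2 * b * Lg)) ^ (U + 1) := by
            exact Nat.mul_le_mul (by norm_num) (Nat.pow_le_pow_left h4 _)
        _ = 2 ^ (2 + 2 * b * Lg * (U + 1)) := by rw [← pow_mul, ← pow_add]
        _ ≤ 2 ^ j := by
            apply Nat.pow_le_pow_right (by norm_num)
            rw [hj, hτ]
            have : (2 * b * (U + 1) + 2) * Lg = 2 * b * Lg * (U + 1) + 2 * Lg := by ring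
            omega
    exact_mod_cast h5
  have h2 : 4 * (1 / 2 : ℝ) ^ j ≤ 1 / (k : ℝ) ^ (U + 1) := by
    rw [le_div_iff₀ (by positivity), one_div, inv_pow]
    have hp : (0 : ℝ) < 2 ^ j := by positivity
    rw [mul_assoc, mul_comm ((2 ^ j : ℝ)⁻¹), ← mul_assoc, ← div_eq_mul_inv, div_le_one hp]
    exact hpow
  have hc0 : (0 : ℝ) ≤ (SD b D k).card := Nat.cast_nonneg _
  calc (((SD b D k).filter Q).card : ℝ) ≤ ((SD b D k).card : ℝ) * (4 * (1 / 2) ^ j) := by linarith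
    _ ≤ ((SD b D k).card : ℝ) * (1 / (k : ℝ) ^ (U + 1)) := mul_le_mul_of_nonneg_left h2 hc0
    _ = _ := by rw [mul_one_div]

open Pool.Agent.H560R3.GB in
/-- **Goldbach's conjecture for almost all even values of a quadratic polynomial at integers with restricted digits.** -/
theorem goldbach (b : ℕ) (hb : 2 ≤ b) (κ β : ℤ) (hκ : κ ≠ 0) (F U : ℕ) (ε : ℝ) (hε : 0 < ε) : ∃ K₀ : ℕ, ∀ k : ℕ, K₀ ≤ k →
    ∀ D : ℕ → Finset ℕ, (∀ i < k, D i ⊆ range b ∧ 2 ≤ (D i).card) → ∀ N₀ : ℤ, |N₀| ≤ F * (b : ℤ) ^ (2 * k) →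
    ∀ Q : ℕ → Prop, [DecidablePred Q] →
    (∀ n, Q n → 0 < N₀ + qv κ β n ∧ 2 ∣ N₀ + qv κ β n ∧
      ¬ (|(g (N₀ + qv κ β n).toNat : ℝ) - HL (N₀ + qv κ β n).toNat| ≤ ε * HL (N₀ + qv κ β n).toNat ∧
        ∃ p q : ℕ, p.Prime ∧ q.Prime ∧ p ≠ q ∧ p + q = (N₀ + qv κ β n).toNat)) →
    (((SD b D k).filter Q).card : ℝ) ≤ ((SD b D k).card : ℝ) / (k : ℝ) ^ U := by
  classical
  obtain ⟨W, K1, hW⟩ := few_small b hb κ β hκ U
  obtain ⟨F', hF'⟩ : ∃ F' : ℕ, F' = F + κ.natAbs + β.natAbs := ⟨_, rfl⟩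
  have hκ1 : 1 ≤ κ.natAbs := Int.natAbs_pos.2 hκ
  have hF1 : 1 ≤ F' := by omega
  obtain ⟨B, hB⟩ := weighted b hb (1 / 2) (by norm_num) κ β hκ F' (U + 2 * W + 5)
  obtain ⟨B₂, hB₂⟩ : ∃ B₂, B₂ = max B 3 := ⟨_, rfl⟩
  obtain ⟨K2, h2⟩ := hB (2 * (B₂ + 1))
  obtain ⟨K3, h3⟩ := log_bounds b 1 hb le_rfl
  obtain ⟨K4, h4⟩ := log_bounds b F' hb hF1
  obtain ⟨K5, h5⟩ := Pool.Agent.W93.GB.good_of ε hε F' W (B₂ + 1)
  refine ⟨K1 + K2 + K3 + K4 + K5 + 2, fun k hk D hD N₀ hN₀ Q _ hQ => ?_⟩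
  obtain ⟨N, hN⟩ : ∃ N, N = b ^ (2 * k) := ⟨_, rfl⟩
  have hk2 : (2 : ℝ) ≤ k := by exact_mod_cast (by omega : 2 ≤ k)
  have hk0 : (0 : ℝ) < k := by linarith
  have hk1 : (1 : ℝ) ≤ k := by linarith
  obtain ⟨hl1, hl2⟩ := h3 k (by omega)
  rw [one_mul, ← hN] at hl1 hl2
  obtain ⟨_, hm2⟩ := h4 k (by omega)
  rw [← hN] at hm2
  have hkN : k ≤ N := by
    rw [hN]
    calc k ≤ 2 * k := by omega
      _ ≤ b ^ (2 * k) := (Nat.lt_pow_self (by omega)).le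
  have hN0 : (0 : ℝ) < N := by exact_mod_cast (by omega : 0 < N)
  obtain ⟨L, hL⟩ : ∃ L, L = Real.log (N : ℝ) := ⟨_, rfl⟩
  rw [← hL] at hl1 hl2
  have hL1 : 1 ≤ L := by linarith
  have hL0 : 0 < L := by linarith
  -- the level
  obtain ⟨z, hz⟩ : ∃ z, z = ⌈L ^ B₂⌉₊ := ⟨_, rfl⟩
  have hz1 : L ^ B₂ ≤ z := by rw [hz]; exact Nat.le_ceil _
  have hz2 : (z : ℝ) ≤ L ^ (B₂ + 1) := by
    have e1 : (z : ℝ) < L ^ B₂ + 1 := by rw [hz]; exact Nat.ceil_lt_add_one (by positivity)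
    have e2 : 1 ≤ L ^ B₂ := one_le_pow₀ hL1
    have hL2 : 2 ≤ L := by linarith
    rw [pow_succ]
    nlinarith
  have hz3 : (k : ℝ) ^ B ≤ z := by
    calc (k : ℝ) ^ B ≤ (k : ℝ) ^ B₂ := pow_le_pow_right₀ hk1 (by rw [hB₂]; exact le_max_left _ _)
      _ ≤ L ^ B₂ := pow_le_pow_left₀ hk0.le hl1 _
      _ ≤ z := hz1
  have hz4 : L ^ 3 ≤ z := (pow_le_pow_right₀ hL1 (by rw [hB₂]; exact le_max_right _ _)).trans hz1
  have hz5 : (z : ℝ) ≤ (k : ℝ) ^ (2 * (B₂ + 1)) := by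
    refine hz2.trans ?_
    rw [pow_mul]
    exact pow_le_pow_left₀ hL0.le hl2 _
  have hw := dig_wD b hb D k hD
  have hΛ : ∀ a ∈ Icc 1 (F' * N), |ArithmeticFunction.vonMangoldt a / (k : ℝ) ^ 2| ≤ 1 := by
    intro a ha
    rw [mem_Icc] at ha
    rw [abs_of_nonneg (div_nonneg ArithmeticFunction.vonMangoldt_nonneg (by positivity)), div_le_one (by positivity)]
    refine ArithmeticFunction.vonMangoldt_le_log.trans (le_trans ?_ hm2)
    apply Real.log_le_log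
    · exact_mod_cast (by omega : 0 < a)
    · exact_mod_cast ha.2
  have hN₀' : |N₀| ≤ (F' : ℤ) * (b : ℤ) ^ (2 * k) := by
    refine hN₀.trans ?_
    apply mul_le_mul_of_nonneg_right _ (by positivity)
    exact_mod_cast (by omega : F ≤ F')
  have h6 := h2 k (by omega) z hz3 hz5 (wD D k) hw 0 N₀ hN₀' (F' * N) (by rw [hN])
    (fun a => ArithmeticFunction.vonMangoldt a / (k : ℝ) ^ 2) hΛ
  obtain ⟨R, hR⟩ : ∃ R : ℕ → ℝ, ∀ n, R n = |∑ a ∈ Icc 1 (F' * N), ArithmeticFunction.vonMangoldt a *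
      (lamI (N₀ + qv κ β n - a) - lamzI z (N₀ + qv κ β n - a))| := ⟨_, fun _ => rfl⟩
  have h7 : ∀ n, |∑ a ∈ Icc 1 (F' * N), ArithmeticFunction.vonMangoldt a / (k : ℝ) ^ 2 *
      (lamI (N₀ + qv κ β n - a) - lamzI z (N₀ + qv κ β n - a))| = R n / (k : ℝ) ^ 2 := by
    intro n
    rw [hR]
    have : ∑ a ∈ Icc 1 (F' * N), ArithmeticFunction.vonMangoldt a / (k : ℝ) ^ 2 *
        (lamI (N₀ + qv κ β n - a) - lamzI z (N₀ + qv κ β n - a)) =
        (∑ a ∈ Icc 1 (F' * N), ArithmeticFunction.vonMangoldt a *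
          (lamI (N₀ + qv κ β n - a) - lamzI z (N₀ + qv κ β n - a))) / (k : ℝ) ^ 2 := by
      rw [sum_div]
      apply sum_congr rfl
      intro a _
      ring
    rw [this, abs_div, abs_of_pos (show (0 : ℝ) < (k : ℝ) ^ 2 by positivity)]
  simp only [h7] at h6
  rw [sum_wD b hb D k hD] at h6
  have hcard := SD_card_pos b hb D k hD
  have h8 : ∑ n ∈ SD b D k, R n ≤ ((SD b D k).card : ℝ) * ((k : ℝ) ^ 2 * ((N : ℝ) / (k : ℝ) ^ (U + 2 * W + 5))) := by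
    rw [← hN] at h6
    rw [← sum_div, ← mul_div_assoc, div_le_iff₀ (by positivity), one_div, inv_mul_le_iff₀ hcard] at h6
    refine h6.trans (le_of_eq ?_)
    ring
  -- large deviations are rare
  obtain ⟨t, ht⟩ : ∃ t : ℝ, t = N / L ^ (W + 1) := ⟨_, rfl⟩
  have ht0 : 0 < t := by rw [ht]; positivity
  have h9 := markov (SD b D k) R (fun n _ => by rw [hR]; exact abs_nonneg _) t _ h8 (fun n => t < R n) (fun n _ h => h.le)
  have h10 : (((SD b D k).filter (fun n => t < R n)).card : ℝ) ≤ ((SD b D k).card : ℝ) / (k : ℝ) ^ (U + 1) := by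
    rw [← le_div_iff₀ ht0] at h9
    refine h9.trans ?_
    rw [ht, div_le_iff₀ (by positivity)]
    have e1 : L ^ (W + 1) ≤ (k : ℝ) ^ (2 * (W + 1)) := by
      rw [pow_mul]
      exact pow_le_pow_left₀ hL0.le hl2 _
    have e2 : (k : ℝ) ^ (U + 2 * W + 5) = (k : ℝ) ^ (U + 1) * ((k : ℝ) ^ 2 * (k : ℝ) ^ (2 * (W + 1))) := by
      rw [← pow_add, ← pow_add]
      congr 1
      ring
    have e3 : ((SD b D k).card : ℝ) / (k : ℝ) ^ (U + 1) * (N / L ^ (W + 1)) =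
        ((SD b D k).card : ℝ) * N / ((k : ℝ) ^ (U + 1) * L ^ (W + 1)) := by
      rw [div_mul_div_comm]
    rw [e3, e2]
    have e4 : ((SD b D k).card : ℝ) * ((k : ℝ) ^ 2 * (N / ((k : ℝ) ^ (U + 1) * ((k : ℝ) ^ 2 * (k : ℝ) ^ (2 * (W + 1)))))) =
        ((SD b D k).card : ℝ) * N / ((k : ℝ) ^ (U + 1) * (k : ℝ) ^ (2 * (W + 1))) := by
      have hkk : (k : ℝ) ≠ 0 := hk0.ne'
      field_simp
    rw [e4]
    apply div_le_div_of_nonneg_left (by positivity) (by positivity)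
    exact mul_le_mul_of_nonneg_left e1 (by positivity)
  have h11 := hW k (by omega) D hD N₀ (fun n => 1 ≤ N₀ + qv κ β n ∧
    ((N₀ + qv κ β n : ℤ) : ℝ) < ((b ^ (2 * k) : ℕ) : ℝ) / Real.log ((b ^ (2 * k) : ℕ) : ℝ) ^ W) (fun n h => h)
  rw [← hN, ← hL] at h11
  -- the exceptions
  have hsub : (SD b D k).filter Q ⊆ (SD b D k).filter (fun n => t < R n) ∪
      (SD b D k).filter (fun n => 1 ≤ N₀ + qv κ β n ∧ ((N₀ + qv κ β n : ℤ) : ℝ) < (N : ℝ) / L ^ W) := by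
    intro n hn
    rw [mem_filter] at hn
    obtain ⟨hq1, hq2, hq3⟩ := hQ n hn.2
    rw [mem_union, mem_filter, mem_filter]
    by_contra hcon
    push Not at hcon
    have hc1 := hcon.1 hn.1
    have hc2 := hcon.2 hn.1 (by omega)
    apply hq3
    obtain ⟨y, hy⟩ : ∃ y : ℕ, (y : ℤ) = N₀ + qv κ β n := ⟨(N₀ + qv κ β n).toNat, by omega⟩
    have hy' : (N₀ + qv κ β n).toNat = y := by omega
    rw [hy']
    have hyle : y ≤ F' * N := by
      have e0 : n < b ^ k := by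
        have h := hn.1
        unfold SD at h
        exact mem_range.1 (mem_filter.1 h).1
      have e1 := (abs_le.1 (qv_le_any κ β b k n e0)).2
      have e2 := (abs_le.1 hN₀).2
      rw [dg_ne hκ] at e1
      have e3 : (y : ℤ) ≤ ((F' * N : ℕ) : ℤ) := by
        rw [hy, hF', hN]
        push_cast at e1 ⊢
        nlinarith
      exact_mod_cast e3
    refine h5 N (by omega) z (by rw [← hL]; exact hz4) (by rw [← hL]; exact hz2) y (by
      have : (2 : ℤ) ∣ (y : ℤ) := by rw [hy]; exact hq2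
      exact_mod_cast this) (by
      rw [← hL]
      rw [← hy] at hc2
      exact_mod_cast hc2) hyle ?_
    rw [← hL, ← ht]
    have e5 := hR n
    rw [← hy] at e5
    rw [← e5]
    exact hc1
  have h12 : (((SD b D k).filter Q).card : ℝ) ≤ (((SD b D k).filter (fun n => t < R n)).card : ℝ) +
      (((SD b D k).filter (fun n => 1 ≤ N₀ + qv κ β n ∧ ((N₀ + qv κ β n : ℤ) : ℝ) < (N : ℝ) / L ^ W)).card : ℝ) := by
    exact_mod_cast (card_le_card hsub).trans (card_union_le _ _)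
  have h13 : ((SD b D k).card : ℝ) / (k : ℝ) ^ (U + 1) + ((SD b D k).card : ℝ) / (k : ℝ) ^ (U + 1) ≤ ((SD b D k).card : ℝ) / (k : ℝ) ^ U := by
    have e1 : ((SD b D k).card : ℝ) / (k : ℝ) ^ (U + 1) + ((SD b D k).card : ℝ) / (k : ℝ) ^ (U + 1) =
        ((SD b D k).card : ℝ) / (k : ℝ) ^ U * (2 / k) := by
      rw [pow_succ]
      field_simp
      ring
    rw [e1]
    apply mul_le_of_le_one_right (by positivity)
    rw [div_le_one hk0]
    exact hk2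
  linarith

end Pool.Agent.TH872.GQ
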