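import Pool.Agent.TH823.Fam.Fam1
import Pool.Agent.TH872.GQ.Fam
import Pool.Agent.H373R2.T7.SupLiou

set_option autoImplicit false

/-! Correlations of a bounded function with small exponential sums with arbitrary functions, for shifts which are
quadratic values at integers with restricted digits. -/

namespace Pool.Agent.TH872.GQ
open Finset
open Pool.Agent.TH872.Sq
open Pool.Agent.H373R2.T7 (SupSmall exI)
open Pool.Agent.TH212.EH (En enum energy_enum)

theorem shifts (f : ℕ → ℂ) (hf : ∀ n, ‖f n‖ ≤ 1) (hsup : SupSmall f) (b : ℕ) (hb : 2 ≤ b) (κ β : ℤ) (hκ : κ ≠ 0)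
    (B T U : ℕ) : ∃ k₀ : ℕ, ∀ k : ℕ, k₀ ≤ k →
    ∀ D : ℕ → Finset ℕ, (∀ i < k, D i ⊆ range b ∧ 2 ≤ (D i).card) → ∀ c : ℤ, |c| ≤ B * (b : ℤ) ^ (2 * k) →
    ∀ L : ℕ, (L : ℝ) ≤ (k : ℝ) ^ T → ∀ (α : Fin L → ℕ) (g : Fin L → ℕ → ℂ), (∀ l, 1 ≤ α l) →
    (∀ l n, α l * n ≤ B * b ^ (2 * k) → ‖g l n‖ ≤ (k : ℝ) ^ T) →
    ∀ P : ℕ → Prop, [DecidablePred P] →
    (∀ n, P n → ∃ l, ∃ X : ℕ, α l * X ≤ B * b ^ (2 * k) ∧
      (b : ℝ) ^ (2 * k) / (k : ℝ) ^ U < ‖∑ m ∈ Icc 1 X, g l m * exI f (((α l * m : ℕ) : ℤ) + value κ β c n)‖) →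
    (((S b D k).filter P).card : ℝ) ≤ (S b D k).card / (k : ℝ) ^ U := by
  classical
  obtain ⟨h, B', k1, hBB, hfam⟩ := quad_hyp b hb κ β hκ B
  obtain ⟨k2, hk2⟩ := log_bounds b 1 hb le_rfl
  obtain ⟨n3, h3⟩ := Pool.Agent.TH823.Fam.fam_all f hf hsup h B' 1 T U
  refine ⟨k1 + k2 + n3 + 1, fun k hk D hD c hc L hL α g hα hg P _ hP => ?_⟩
  obtain ⟨f1, f2⟩ := hfam k (by omega) D hD c (by push_cast; exact hc)
  obtain ⟨N, hN⟩ : ∃ N : ℕ, N = b ^ (2 * k) := ⟨_, rfl⟩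
  obtain ⟨hl1, _⟩ := hk2 k (by omega)
  rw [one_mul] at hl1
  have hNr : (N : ℝ) = (b : ℝ) ^ (2 * k) := by rw [hN]; push_cast; rfl
  have hkN : k ≤ N := by
    rw [hN]
    calc k ≤ 2 * k := by omega
      _ ≤ b ^ (2 * k) := (Nat.lt_pow_self (by omega)).le
  rw [← hN] at f1 f2 hl1 hg hP
  rw [← hNr] at hP
  have hk1 : (1 : ℝ) ≤ k := by exact_mod_cast (by omega : 1 ≤ k)
  have hk0 : (0 : ℝ) < k := by linarith
  have hval : ∀ n, value κ β c n = c + qv κ β n := value_eq κ β c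
  have hcard := SD_card_pos b hb D k hD
  have hSS : SD b D k = S b D k := rfl
  rw [hSS] at hcard
  have hfc : Fintype.card {n // n ∈ S b D k} = (S b D k).card := Fintype.card_coe _
  have hne : Nonempty {n // n ∈ S b D k} := by
    rw [← Fintype.card_pos_iff, hfc]
    exact_mod_cast hcard
  obtain ⟨φ, hinj, hsurj⟩ := enum {n // n ∈ S b D k}
  have e1 := energy_enum h (fun i : {n // n ∈ S b D k} => c + qv κ β i.1) φ 0 hinj
  obtain ⟨s, hs⟩ : ∃ s : ℕ → ℤ, s = fun m => (c + qv κ β (φ m).1) - 0 := ⟨_, rfl⟩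
  rw [← hs] at e1
  have hsv : ∀ m, s m = value κ β c (φ m).1 := by
    intro m
    rw [hs, hval]
    exact sub_zero _
  obtain ⟨x, hx⟩ : ∃ x, x = Fintype.card {n // n ∈ S b D k} := ⟨_, rfl⟩
  have hkT : (k : ℝ) ^ T ≤ Real.log N ^ T := pow_le_pow_left₀ hk0.le hl1 T
  have f3 : (Pool.Agent.H373R2.T7.energy h x s : ℝ) * N ≤ Real.log N ^ 1 * (x : ℝ) ^ (2 * h) := by
    rw [hx]
    refine le_trans ?_ f2
    apply mul_le_mul_of_nonneg_right _ (Nat.cast_nonneg _)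
    exact_mod_cast e1
  have r1 := h3 N (by omega) x s (fun m _ => by
      rw [hsv, hval]
      exact f1 (φ m)) f3 L (hL.trans hkT)
    (fun l => if hl : l < L then α ⟨l, hl⟩ else 1)
    (fun l n => if hl : l < L then (if α ⟨l, hl⟩ * n ≤ B * N then g ⟨l, hl⟩ n else 0) else 0) (by
      intro l hl
      simp only [hl, dif_pos]
      exact hα _) (by
      intro l hl n hn1 hn2
      simp only [hl, dif_pos] at hn2 ⊢
      split_ifs with h6
      · exact (hg _ _ h6).trans hkT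
      · rw [norm_zero]
        positivity) (fun m => P (φ m).1) (by
      intro m _ hm
      obtain ⟨l, X, hX, h7⟩ := hP _ hm
      refine ⟨l, l.2, X, ?_, ?_⟩
      · simp only [l.2, dif_pos]
        exact hX.trans (Nat.mul_le_mul_right _ hBB)
      · have h8 : (N : ℝ) / Real.log N ^ U ≤ (N : ℝ) / (k : ℝ) ^ U :=
          div_le_div_of_nonneg_left (Nat.cast_nonneg _) (by positivity) (pow_le_pow_left₀ hk0.le hl1 U)
        refine lt_of_le_of_lt h8 (lt_of_lt_of_eq h7 ?_)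
        congr 1
        apply sum_congr rfl
        intro n hn
        rw [mem_Icc] at hn
        simp only [l.2, dif_pos]
        rw [if_pos ((Nat.mul_le_mul_left _ hn.2).trans hX), hsv])
  have r2 : ((S b D k).filter P).card ≤ ((Icc 1 x).filter (fun m => P (φ m).1)).card := by
    have e2 : (S b D k).filter P ⊆ ((Icc 1 x).filter (fun m => P (φ m).1)).image (fun m => (φ m).1) := by
      intro n hn
      rw [mem_filter] at hn
      obtain ⟨m, hm1, hm2⟩ := hsurj ⟨n, hn.1⟩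
      rw [mem_image]
      refine ⟨m, mem_filter.2 ⟨by rw [hx]; exact hm1, ?_⟩, ?_⟩
      · rw [hm2]
        exact hn.2
      · rw [hm2]
    exact (card_le_card e2).trans card_image_le
  have r3 : (((S b D k).filter P).card : ℝ) ≤ (x : ℝ) / Real.log N ^ U := by
    refine le_trans ?_ r1
    exact_mod_cast r2
  rw [hx, hfc] at r3
  exact r3.trans (pow_of_log _ _ (Nat.cast_nonneg _) k U (by omega) hl1)

end Pool.Agent.TH872.GQ
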